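import Mathlib

/-!
# Fibonacci and Lucas numbers
-/

set_option autoImplicit false

open Real

namespace Pool.Agent.H95.FB

/-- the Lucas numbers `2, 1, 3, 4, 7, 11, …` -/
def lucas : ℕ → ℕ
  | 0 => 2
  | 1 => 1
  | n + 2 => lucas n + lucas (n + 1)

theorem lucas_add_two (n : ℕ) : lucas (n + 2) = lucas n + lucas (n + 1) := rfl

theorem lucas_add_fib (n : ℕ) : lucas n + Nat.fib n = 2 * Nat.fib (n + 1) := by
  induction n using Nat.twoStepInduction with
  | zero => rfl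
  | one => rfl
  | more n h1 h2 =>
    have h3 := Nat.fib_add_two (n := n)
    have h4 := Nat.fib_add_two (n := n + 1)
    have h5 : Nat.fib (n + 2 + 1) = Nat.fib (n + 1 + 2) := rfl
    rw [lucas_add_two]
    omega

theorem fib_mul_lucas (n : ℕ) : Nat.fib (2 * n) = Nat.fib n * lucas n := by
  rw [Nat.fib_two_mul]
  congr 1
  have := lucas_add_fib n
  omega

theorem lucas_binet (n : ℕ) : (lucas n : ℝ) = goldenRatio ^ n + goldenConj ^ n := by
  induction n using Nat.twoStepInduction with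
  | zero =>
    have h : lucas 0 = 2 := rfl
    rw [h]
    norm_num
  | one =>
    have h : lucas 1 = 1 := rfl
    rw [h, pow_one, pow_one, goldenRatio_add_goldenConj]
    norm_num
  | more n h1 h2 =>
    rw [lucas_add_two]
    push_cast
    rw [h1, h2]
    linear_combination -goldenRatio ^ n * goldenRatio_sq - goldenConj ^ n * goldenConj_sq

theorem fib_binet (n : ℕ) : √5 * (Nat.fib n : ℝ) = goldenRatio ^ n - goldenConj ^ n := by
  rw [Real.coe_fib_eq, mul_div_cancel₀]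
  have : (0 : ℝ) < √5 := Real.sqrt_pos.2 (by norm_num)
  exact this.ne'

theorem conj_pow (n : ℕ) : goldenConj ^ n = (-1) ^ n * (goldenRatio ^ n)⁻¹ := by
  have h : goldenConj = (-1) * goldenRatio⁻¹ := by
    rw [inv_goldenRatio]
    ring
  rw [h, mul_pow, inv_pow]

/-- the relations `κ M = φ ^ n - η ^ 2 φ ^ (- n)` -/
theorem fib_odd (n : ℕ) (hn : Odd n) : ((√5 : ℝ) : ℂ) * ((Nat.fib n : ℕ) : ℂ) =
    ((goldenRatio : ℝ) : ℂ) ^ n - Complex.I ^ 2 * (((goldenRatio : ℝ) : ℂ) ^ n)⁻¹ := by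
  have h := fib_binet n
  rw [conj_pow, hn.neg_one_pow] at h
  rw [Complex.I_sq]
  have h2 := congrArg (Complex.ofReal) h
  push_cast at h2 ⊢
  rw [h2]

theorem lucas_odd (n : ℕ) (hn : Odd n) : (1 : ℂ) * ((lucas n : ℕ) : ℂ) =
    ((goldenRatio : ℝ) : ℂ) ^ n - 1 ^ 2 * (((goldenRatio : ℝ) : ℂ) ^ n)⁻¹ := by
  have h := lucas_binet n
  rw [conj_pow, hn.neg_one_pow] at h
  have h2 := congrArg (Complex.ofReal) h
  push_cast at h2 ⊢
  rw [h2]
  ring

theorem lucas_even (n : ℕ) (hn : Even n) : (1 : ℂ) * ((lucas n : ℕ) : ℂ) =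
    ((goldenRatio : ℝ) : ℂ) ^ n - Complex.I ^ 2 * (((goldenRatio : ℝ) : ℂ) ^ n)⁻¹ := by
  have h := lucas_binet n
  rw [conj_pow, hn.neg_one_pow] at h
  rw [Complex.I_sq]
  have h2 := congrArg (Complex.ofReal) h
  push_cast at h2 ⊢
  rw [h2]
  ring

/-- every positive integer divides a Fibonacci number -/
theorem exists_dvd_fib (A : ℕ) (hA : 0 < A) : ∃ m, 0 < m ∧ A ∣ Nat.fib m := by
  have : NeZero A := ⟨hA.ne'⟩
  let f : Equiv.Perm (ZMod A × ZMod A) :=
    { toFun := fun p => (p.2, p.1 + p.2)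
      invFun := fun p => (p.2 - p.1, p.1)
      left_inv := fun p => by ext <;> simp
      right_inv := fun p => by ext <;> simp }
  have h1 : ∀ m : ℕ, (f ^ m) (0, 1) = ((Nat.fib m : ZMod A), (Nat.fib (m + 1) : ZMod A)) := by
    intro m
    induction m with
    | zero => simp
    | succ m ih =>
      rw [pow_succ', Equiv.Perm.mul_apply, ih]
      show ((Nat.fib (m + 1) : ZMod A), (Nat.fib m : ZMod A) + (Nat.fib (m + 1) : ZMod A)) = _
      rw [Nat.fib_add_two (n := m)]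
      push_cast
      rfl
  have h2 : 0 < orderOf f := orderOf_pos f
  refine ⟨orderOf f, h2, ?_⟩
  have h3 := h1 (orderOf f)
  rw [pow_orderOf_eq_one, Equiv.Perm.one_apply] at h3
  have h4 := (Prod.ext_iff.1 h3).1
  simp only at h4
  exact (ZMod.natCast_eq_zero_iff _ _).1 h4.symm

theorem gcd_one {n m : ℕ} (hm : 0 < m) (h : ∀ q : ℕ, q.Prime → q ∣ n → m < q) :
    Nat.gcd n m = 1 := by
  by_contra hne
  obtain ⟨p, hp, hpd⟩ := Nat.exists_prime_and_dvd hne
  have h1 := Nat.dvd_gcd_iff.1 hpd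
  have h2 := h p hp h1.1
  have h3 := Nat.le_of_dvd hm h1.2
  omega

theorem fib_gcd_dvd {q n m : ℕ} (h : q ∣ Nat.fib n) (h' : q ∣ Nat.fib m) :
    q ∣ Nat.fib (Nat.gcd n m) := by
  rw [Nat.fib_gcd]
  exact Nat.dvd_gcd h h'

theorem fib_large (A : ℕ) : ∃ m, ∀ n, (∀ q : ℕ, q.Prime → q ∣ n → m < q) →
    ∀ q : ℕ, q.Prime → q ∣ Nat.fib n → A < q := by
  obtain ⟨m, hm, hA⟩ := exists_dvd_fib A.factorial (Nat.factorial_pos A)
  refine ⟨m, fun n hn q hq hqn => ?_⟩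
  by_contra hle
  push Not at hle
  have h1 := fib_gcd_dvd hqn ((Nat.dvd_factorial hq.pos hle).trans hA)
  rw [gcd_one hm hn] at h1
  exact hq.one_lt.ne' (Nat.dvd_one.1 h1)

theorem lucas_large (A : ℕ) : ∃ m, ∀ n, (∀ q : ℕ, q.Prime → q ∣ n → m < q) →
    ∀ q : ℕ, q.Prime → q ∣ lucas n → A < q := by
  obtain ⟨m, hm, hA⟩ := exists_dvd_fib A.factorial (Nat.factorial_pos A)
  refine ⟨m, fun n hn q hq hqn => ?_⟩
  by_contra hle
  push Not at hle
  have h0 : q ∣ Nat.fib (2 * n) := by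
    rw [fib_mul_lucas]
    exact hqn.mul_left _
  have h1 := fib_gcd_dvd h0 ((Nat.dvd_factorial hq.pos hle).trans hA)
  have h2 : Nat.gcd (2 * n) m ∣ 2 := by
    have h3 : Nat.Coprime (Nat.gcd (2 * n) m) n := by
      have h4 := gcd_one hm hn
      exact Nat.Coprime.coprime_dvd_left (Nat.gcd_dvd_right _ _) (Nat.Coprime.symm h4)
    exact h3.dvd_of_dvd_mul_right (Nat.gcd_dvd_left _ _)
  have h3 : Nat.gcd (2 * n) m = 1 ∨ Nat.gcd (2 * n) m = 2 :=
    (Nat.dvd_prime Nat.prime_two).1 h2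
  rcases h3 with h4 | h4
  · rw [h4] at h1
    exact hq.one_lt.ne' (Nat.dvd_one.1 h1)
  · rw [h4] at h1
    exact hq.one_lt.ne' (Nat.dvd_one.1 h1)

theorem lucas_pow_large (A : ℕ) : ∃ J, ∀ j, J ≤ j →
    ∀ q : ℕ, q.Prime → q ∣ lucas (2 ^ j) → A < q := by
  obtain ⟨m, hm, hA⟩ := exists_dvd_fib A.factorial (Nat.factorial_pos A)
  refine ⟨m, fun j hj q hq hqn => ?_⟩
  by_contra hle
  push Not at hle
  have h0 : q ∣ Nat.fib (2 * 2 ^ j) := by
    rw [fib_mul_lucas]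
    exact hqn.mul_left _
  have h1 := fib_gcd_dvd h0 ((Nat.dvd_factorial hq.pos hle).trans hA)
  rw [← pow_succ'] at h0 h1
  -- `gcd (2 ^ (j + 1)) m` is a power of two which divides `2 ^ j`
  obtain ⟨i, hi, hi2⟩ := (Nat.dvd_prime_pow Nat.prime_two).1 (Nat.gcd_dvd_left (2 ^ (j + 1)) m)
  have h2 : 2 ^ i ≤ m := by
    rw [← hi2]
    exact Nat.gcd_le_right _ hm
  have h3 : m < 2 ^ m := Nat.lt_two_pow_self
  have h4 : i < m := (Nat.pow_lt_pow_iff_right (by norm_num)).1 (h2.trans_lt h3)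
  have h5 : q ∣ Nat.fib (2 ^ j) := by
    rw [hi2] at h1
    exact h1.trans (Nat.fib_dvd _ _ (pow_dvd_pow 2 (by omega)))
  have h6 : q ∣ 2 * Nat.fib (2 ^ j + 1) := by
    rw [← lucas_add_fib]
    exact dvd_add hqn h5
  have h7 : q ∣ 2 := by
    rcases hq.dvd_mul.1 h6 with h8 | h8
    · exact h8
    · exfalso
      have h9 := Nat.dvd_gcd h5 h8
      rw [Nat.Coprime.gcd_eq_one (Nat.fib_coprime_fib_succ _)] at h9
      exact hq.one_lt.ne' (Nat.dvd_one.1 h9)
  have h8 : q = 2 := (Nat.prime_dvd_prime_iff_eq hq Nat.prime_two).1 h7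
  rw [h8] at h0
  have h9 : (2 : ℕ) ∣ Nat.fib 3 := by decide
  have h10 := fib_gcd_dvd h0 h9
  have h11 : Nat.gcd (2 ^ (j + 1)) 3 = 1 := by
    apply Nat.Coprime.pow_left
    norm_num
  rw [h11] at h10
  norm_num at h10

end Pool.Agent.H95.FB
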