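import Mathlib
import Pool.Graph.R_pool_sql_team_seeded_1acbe0a2.Y742.DI.Gcd3

/-!
# Common divisors of coprime polynomials in units, in the abstract dictionary

A variant of `Pool.Agent.Y742.DI.gcd_neg`: every common divisor of the values of two coprime
polynomials at algebraically independent units is negligible.
-/

set_option autoImplicit false

open Finset Module MvPolynomial Filter

namespace Pool.Agent.H95.FB

open Pool.Agent.Y742.DI

variable {k E : Type} [Field k] [Field E] [Algebra k E] (D : Dict k E) {m : ℕ}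

/-- the estimate for one degree -/
theorem gcd_M (X : Fin m → Eˣ) (hX : ∀ j, X j ∈ D.U)
    (hind : AlgebraicIndependent k (fun j => (X j : E))) (y : E) (hy0 : y ≠ 0) (M : ℕ) :
    D.Neg (fun ω => finrank k (WW D X y M) * D.lg y ω -
      (((Sx m M).card - finrank k (WW D X y M) : ℕ) : ℝ) * (M * ∑ j, |D.lg (X j) ω|)) := by
  classical
  obtain ⟨W, hW⟩ : ∃ W, W = WW D X y M := ⟨_, rfl⟩
  rw [← hW]
  obtain ⟨N, hN⟩ : ∃ N, N = finrank k W := ⟨_, rfl⟩
  rw [← hN]
  -- echelon bases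
  have hech : ∀ e : Sx m M ≃ Fin (Fintype.card (Sx m M)), ∃ (τ : Fin N → Sx m M)
      (f : Fin N → ((Sx m M) → k)), Function.Injective τ ∧ LinearIndependent k f ∧
      Submodule.span k (Set.range f) = W ∧ ∀ a b, (e (τ a) : ℕ) < e b → f a b = 0 := by
    intro e
    rw [hN]
    exact ech (fun b => (e b : ℕ)) (fun a b h => e.injective (Fin.ext h)) W
  choose τ f hτ hf hfs hfz using hech
  let B : (Sx m M ≃ Fin (Fintype.card (Sx m M))) → Fin N → E := fun e a => LL k X y M (f e a)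
  have hinj := LL_inj X hind y hy0 M
  have hBne : ∀ e a, B e a ≠ 0 := by
    intro e a h
    have h1 : f e a = 0 := hinj (by rw [map_zero]; exact h)
    exact (hf e).ne_zero a h1
  choose s hs using fun ω : D.Ω => exists_order (fun b : Sx m M => ell D X b.1 ω)
  have key := D.smt N (Sx m M ≃ Fin (Fintype.card (Sx m M))) B
    (fun e => (hf e).map' (LL k X y M) (LinearMap.ker_eq_bot.2 hinj))
    (by
      have h1 : ∀ e, Submodule.span k (Set.range (B e)) = W.map (LL k X y M) := by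
        intro e
        rw [← hfs e, Submodule.map_span, ← Set.range_comp]
        rfl
      intro e e'
      rw [h1, h1])
    (by
      intro e a
      have h1 : f e a ∈ W := by
        rw [← hfs e]
        exact Submodule.subset_span ⟨a, rfl⟩
      rw [hW] at h1
      exact h1) s
  -- the upper bounds
  have hup : ∀ e : Sx m M ≃ Fin (Fintype.card (Sx m M)), ∀ a : Fin N, ∃ C : ℝ,
      ∀ᶠ ω in D.ev, ∀ w : ℝ, (∀ b, f e a b ≠ 0 → ell D X b.1 ω ≤ w) →
        D.lg (B e a) ω ≤ C + w - D.lg y ω := by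
    intro e a
    have h0 : ∑ b : Sx m M, algebraMap k E (f e a b) * mon X b.1 ≠ 0 := by
      intro h
      apply hBne e a
      simp only [B]
      rw [LL_apply, h, zero_div]
    obtain ⟨C, hC⟩ := D.lg_sum_le (f e a) (fun b : Sx m M => mon X b.1) (fun b => mon_ne X _) h0
    refine ⟨C, ?_⟩
    have h3 : ∀ᶠ ω in D.ev, ∀ b ∈ (Finset.univ : Finset (Sx m M)),
        D.lg (mon X b.1) ω = ell D X b.1 ω :=
      (Filter.eventually_all_finset _).2 fun b _ => lg_mon D X _
    filter_upwards [hC, D.lg_div _ _ h0 hy0, h3] with ω h1 h2 h4 w hw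
    have h5 : D.lg (B e a) ω = D.lg (∑ b : Sx m M, algebraMap k E (f e a b) * mon X b.1) ω -
        D.lg y ω := by
      rw [← h2]
      simp only [B]
      rw [LL_apply]
    rw [h5]
    have h6 := h1 w (fun b hb => by rw [h4 b (Finset.mem_univ _)]; exact hw b hb)
    linarith
  choose C hC using hup
  have hCs : ∀ᶠ ω in D.ev, ∀ e ∈ (Finset.univ : Finset (Sx m M ≃ Fin (Fintype.card (Sx m M)))),
      ∀ a ∈ (Finset.univ : Finset (Fin N)), ∀ w : ℝ, (∀ b, f e a b ≠ 0 → ell D X b.1 ω ≤ w) →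
        D.lg (B e a) ω ≤ C e a + w - D.lg y ω :=
    (Filter.eventually_all_finset _).2 fun e _ => (Filter.eventually_all_finset _).2
      fun a _ => hC e a
  obtain ⟨C0, hC0⟩ : ∃ C0 : ℝ, C0 = ∑ e : Sx m M ≃ Fin (Fintype.card (Sx m M)),
      ∑ a : Fin N, |C e a| := ⟨_, rfl⟩
  have hN' : N ≤ (Sx m M).card := by
    rw [hN]
    refine (Submodule.finrank_le _).trans ?_
    rw [Module.finrank_fintype_fun_eq_card, Fintype.card_coe]
  -- combination
  have hcomb := D.neg_add _ _ key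
    (D.neg_add _ _ (D.neg_sum Finset.univ (fun (b : Sx m M) ω => ell D X b.1 ω)
      (fun b _ => ell_neg D X hX _)) (D.neg_const (N * C0)))
  refine D.neg_mono _ _ ?_ hcomb
  filter_upwards [hCs] with ω hω
  have h1 : ∀ a : Fin N, Real.log (D.A (B (s ω) a) ω) ≤
      C0 + ell D X (τ (s ω) a).1 ω - D.lg y ω := by
    intro a
    have h2 := hω (s ω) (Finset.mem_univ _) a (Finset.mem_univ _) (ell D X (τ (s ω) a).1 ω)
      (by
        intro b hb
        refine hs ω b (τ (s ω) a) ?_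
        by_contra hlt
        push Not at hlt
        exact hb (hfz (s ω) a b hlt))
    have h3 : C (s ω) a ≤ C0 := by
      rw [hC0]
      refine (le_abs_self _).trans ?_
      refine (Finset.single_le_sum (f := fun a => |C (s ω) a|) (fun _ _ => abs_nonneg _)
        (Finset.mem_univ a)).trans ?_
      exact Finset.single_le_sum (f := fun e => ∑ a : Fin N, |C e a|)
        (fun _ _ => Finset.sum_nonneg fun _ _ => abs_nonneg _) (Finset.mem_univ _)
    have h4 : Real.log (D.A (B (s ω) a) ω) = D.lg (B (s ω) a) ω := rfl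
    rw [h4]
    linarith
  have h2 : ∑ a : Fin N, Real.log (D.A (B (s ω) a) ω) ≤
      N * C0 + ∑ a, ell D X (τ (s ω) a).1 ω - N * D.lg y ω := by
    refine (Finset.sum_le_sum fun a _ => h1 a).trans (le_of_eq ?_)
    rw [Finset.sum_sub_distrib, Finset.sum_add_distrib, Finset.sum_const, Finset.sum_const,
      Finset.card_univ, Fintype.card_fin, nsmul_eq_mul, nsmul_eq_mul]
  -- the sum over the leads
  have h3 : ∑ a, ell D X (τ (s ω) a).1 ω =
      ∑ b ∈ Finset.univ.image (τ (s ω)), ell D X b.1 ω := by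
    rw [Finset.sum_image fun a _ b _ h => hτ (s ω) h]
  have h4 : ∑ b ∈ Finset.univ.image (τ (s ω)), ell D X b.1 ω +
      ∑ b ∈ (Finset.univ.image (τ (s ω)))ᶜ, ell D X b.1 ω = ∑ b : Sx m M, ell D X b.1 ω :=
    Finset.sum_add_sum_compl _ _
  have h5 : -(((Sx m M).card - N : ℕ) * (M * ∑ j, |D.lg (X j) ω|)) ≤
      ∑ b ∈ (Finset.univ.image (τ (s ω)))ᶜ, ell D X b.1 ω := by
    have h6 : ((Finset.univ.image (τ (s ω)))ᶜ).card = (Sx m M).card - N := by
      rw [Finset.card_compl, Finset.card_image_of_injective _ (hτ _), Finset.card_univ,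
        Fintype.card_fin, Fintype.card_coe]
    rw [← h6, ← nsmul_eq_mul, ← Finset.sum_const, ← Finset.sum_neg_distrib]
    refine Finset.sum_le_sum fun b _ => ?_
    have := abs_ell_le D X M b ω
    rw [abs_le] at this
    linarith [this.1]
  linarith

/-- the codimension of the ideal -/
theorem cod_bound (X : Fin m → Eˣ) (hX : ∀ j, X j ∈ D.U) (hm : 1 ≤ m)
    (p q : MvPolynomial (Fin m) k) (hq : q ≠ 0) (hpq : IsRelPrime q p) (y : E)
    (hpy : aeval (fun j => (X j : E)) p / y ∈ D.R) (hqy : aeval (fun j => (X j : E)) q / y ∈ D.R)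
    (M : ℕ) (hM : p.totalDegree + q.totalDegree ≤ M) :
    (M + 1) ^ 2 * (Sx m M).card ≤
      (M + 1) ^ 2 * finrank k (WW D X y M) +
        p.totalDegree * q.totalDegree * m ^ m * (Sx m M).card := by
  classical
  have h1 := dim_lower p q hq hpq M hM (WW D X y M) (by
    intro α β hα hβ
    have hdeg : (α * p + β * q).totalDegree ≤ M := by
      refine (totalDegree_add _ _).trans (max_le ?_ ?_)
      · refine (totalDegree_mul _ _).trans ?_
        omega
      · refine (totalDegree_mul _ _).trans ?_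
        omega
    show LL k X y M (coef k m M (α * p + β * q)) ∈ D.R
    rw [LL_coef X y M _ hdeg, map_add, map_mul, map_mul]
    have h2 : (aeval (fun j => (X j : E)) α * aeval (fun j => (X j : E)) p +
        aeval (fun j => (X j : E)) β * aeval (fun j => (X j : E)) q) / y =
        aeval (fun j => (X j : E)) α * (aeval (fun j => (X j : E)) p / y) +
          aeval (fun j => (X j : E)) β * (aeval (fun j => (X j : E)) q / y) := by
      ring
    rw [h2]
    exact D.R.add_mem (D.R.mul_mem (aeval_mem D X hX α) hpy)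
      (D.R.mul_mem (aeval_mem D X hX β) hqy))
  have h2 := Sx_diff m p.totalDegree q.totalDegree hm M hM
  have h3 := Sx_lower m M hm
  have h4 : p.totalDegree * q.totalDegree * (M + 1) ^ m ≤
      p.totalDegree * q.totalDegree * (m ^ m * (Sx m M).card) := Nat.mul_le_mul_left _ h3
  have h5 := Nat.mul_le_mul_left ((M + 1) ^ 2) h1
  rw [mul_add, mul_add] at h2 h5
  rw [← mul_assoc] at h4
  omega

/-- **Common divisors of coprime polynomials in independent units are negligible.** -/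
theorem gcd_y (X : Fin m → Eˣ) (hX : ∀ j, X j ∈ D.U) (hm : 1 ≤ m)
    (hind : AlgebraicIndependent k (fun j => (X j : E)))
    (p q : MvPolynomial (Fin m) k) (hq : q ≠ 0) (hpq : IsRelPrime q p) (y : E) (hy0 : y ≠ 0)
    (hpy : aeval (fun j => (X j : E)) p / y ∈ D.R) (hqy : aeval (fun j => (X j : E)) q / y ∈ D.R) :
    D.Neg (fun ω => D.lg y ω) := by
  classical
  apply D.arch
  intro ε hε
  choose C hC using fun j => D.bdd (X j : E) (X j).ne_zero
  obtain ⟨C0, hC0⟩ : ∃ C0 : ℝ, C0 = ∑ j, |C j| := ⟨_, rfl⟩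
  have hC00 : 0 ≤ C0 := by rw [hC0]; exact Finset.sum_nonneg fun _ _ => abs_nonneg _
  have hbd : D.Neg (fun ω => ∑ j, |D.lg (X j) ω| - C0 * D.one ω) := by
    refine D.neg_mono _ _ ?_ (D.neg_sum Finset.univ
      (fun j ω => |Real.log (D.A (X j : E) ω)| - C j * D.one ω) fun j _ => hC j)
    filter_upwards [D.one_nonneg] with ω h1
    rw [hC0, Finset.sum_mul, ← Finset.sum_sub_distrib]
    refine Finset.sum_le_sum fun j _ => ?_
    have := mul_le_mul_of_nonneg_right (le_abs_self (C j)) h1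
    unfold Dict.lg
    linarith
  obtain ⟨d, hd⟩ : ∃ d, d = p.totalDegree := ⟨_, rfl⟩
  obtain ⟨e, he⟩ : ∃ e, e = q.totalDegree := ⟨_, rfl⟩
  obtain ⟨R, hR⟩ : ∃ R : ℕ, R = d * e * m ^ m := ⟨_, rfl⟩
  obtain ⟨M1, hM1⟩ := exists_nat_ge (4 * R * C0 / ε)
  obtain ⟨M, hM⟩ : ∃ M : ℕ, M = M1 + 2 * R + (d + e) := ⟨_, rfl⟩
  have hcod := cod_bound D X hX hm p q hq hpq y hpy hqy M (by omega)
  have hmain := gcd_M D X hX hind y hy0 M
  obtain ⟨N, hN⟩ : ∃ N, N = finrank k (WW D X y M) := ⟨_, rfl⟩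
  rw [← hN, ← hd, ← he, ← hR] at hcod
  rw [← hN] at hmain
  obtain ⟨s, hs⟩ : ∃ s, s = (Sx m M).card := ⟨_, rfl⟩
  rw [← hs] at hcod hmain
  have hs0 : 0 < s := by
    rw [hs]
    have h1 := Sx_lower m M hm
    have h2 : 0 < (M + 1) ^ m := by positivity
    by_contra h3
    push Not at h3
    rw [Nat.le_zero.1 h3, mul_zero] at h1
    omega
  have hNs : N ≤ s := by
    rw [hN, hs]
    refine (Submodule.finrank_le _).trans ?_
    rw [Module.finrank_fintype_fun_eq_card, Fintype.card_coe]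
  -- real inequalities
  have hsr : (0 : ℝ) < s := by exact_mod_cast hs0
  have hMr : (1 : ℝ) ≤ (M : ℝ) + 1 := by
    have : (0 : ℝ) ≤ M := Nat.cast_nonneg _
    linarith
  have hcodr : ((M : ℝ) + 1) ^ 2 * (s - N) ≤ R * s := by
    have : (((M + 1) ^ 2 * s : ℕ) : ℝ) ≤ (((M + 1) ^ 2 * N + R * s : ℕ) : ℝ) := by
      exact_mod_cast hcod
    push_cast at this
    nlinarith
  have hM2 : 2 * (R : ℝ) ≤ (M : ℝ) + 1 := by
    have : 2 * R ≤ M + 1 := by omega
    exact_mod_cast this
  have hM3 : 4 * R * C0 ≤ ε * ((M : ℝ) + 1) := by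
    have h1 : (M1 : ℝ) ≤ (M : ℝ) + 1 := by
      have : M1 ≤ M + 1 := by omega
      exact_mod_cast this
    have h2 := hM1.trans h1
    rw [div_le_iff₀ hε] at h2
    linarith
  have hR0 : (0 : ℝ) ≤ R := Nat.cast_nonneg _
  have hNr : (s : ℝ) / 2 ≤ N := by
    have h1 : ((M : ℝ) + 1) ^ 2 * (s - N) ≤ ((M : ℝ) + 1) ^ 2 * (s / 2) := by
      refine hcodr.trans ?_
      have h2 : 2 * (R : ℝ) ≤ ((M : ℝ) + 1) ^ 2 := by nlinarith
      nlinarith
    have h2 := le_of_mul_le_mul_left h1 (by positivity)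
    linarith
  have hN0 : (0 : ℝ) < N := by linarith
  have hsub : (((s - N : ℕ)) : ℝ) = s - N := by
    rw [Nat.cast_sub hNs]
  obtain ⟨κ, hκ⟩ : ∃ κ : ℝ, κ = 2 * ((s : ℝ) - N) * M / N := ⟨_, rfl⟩
  have hsN : (0 : ℝ) ≤ s - N := by
    have : (N : ℝ) ≤ s := by exact_mod_cast hNs
    linarith
  have hκ0 : 0 ≤ κ := by rw [hκ]; positivity
  have hκε : κ * C0 ≤ ε := by
    rw [hκ, div_mul_eq_mul_div, div_le_iff₀ hN0]
    have h1 : ((M : ℝ) + 1) ^ 2 * (2 * (s - N) * M * C0) ≤ ((M : ℝ) + 1) ^ 2 * (ε * N) := by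
      have h2 : 2 * M * C0 * (((M : ℝ) + 1) ^ 2 * (s - N)) ≤ 2 * M * C0 * (R * s) :=
        mul_le_mul_of_nonneg_left hcodr (by positivity)
      have h3 : 2 * M * C0 * (R * s) ≤ 2 * ((M : ℝ) + 1) * C0 * (R * s) := by
        have : 0 ≤ C0 * (R * s) := by positivity
        nlinarith
      have h4 : 2 * ((M : ℝ) + 1) * C0 * (R * s) ≤ ((M : ℝ) + 1) ^ 2 * (ε * (s / 2)) := by
        have h5 : 4 * R * C0 * (((M : ℝ) + 1) * s / 2) ≤
            ε * ((M : ℝ) + 1) * (((M : ℝ) + 1) * s / 2) :=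
          mul_le_mul_of_nonneg_right hM3 (by positivity)
        nlinarith
      have h5 : ((M : ℝ) + 1) ^ 2 * (ε * (s / 2)) ≤ ((M : ℝ) + 1) ^ 2 * (ε * N) := by
        refine mul_le_mul_of_nonneg_left ?_ (by positivity)
        exact mul_le_mul_of_nonneg_left hNr hε.le
      nlinarith
    exact le_of_mul_le_mul_left h1 (by positivity)
  -- the combination
  have hcomb := D.neg_add _ _ (D.neg_smul _ (2 / N : ℝ) (by positivity) hmain)
    (D.neg_smul _ κ hκ0 hbd)
  have hhalf := D.neg_smul _ (1 / 2 : ℝ) (by norm_num) hcomb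
  refine D.neg_mono _ _ ?_ hhalf
  filter_upwards [D.one_nonneg] with ω h1
  rw [hsub]
  have h3 : 2 / (N : ℝ) * (N * D.lg y ω - (s - N) * (M * ∑ j, |D.lg (X j) ω|)) =
      2 * D.lg y ω - κ * ∑ j, |D.lg (X j) ω| := by
    rw [hκ]
    field_simp
  rw [h3]
  have h4 : κ * C0 * D.one ω ≤ ε * D.one ω := mul_le_mul_of_nonneg_right hκε h1
  have h5 : κ * (∑ j, |D.lg (X j) ω| - C0 * D.one ω) =
      κ * ∑ j, |D.lg (X j) ω| - κ * C0 * D.one ω := by ring
  rw [h5]
  have h6 : 0 ≤ ε * D.one ω := mul_nonneg hε.le h1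
  linarith

end Pool.Agent.H95.FB
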