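import Mathlib
import Pool.Graph.R_pool_sql_team_seeded_1acbe0a2.Y742.AR.Inst
import Pool.Graph.R_pool_sql_team_seeded_1acbe0a2.Y742.DI.MBas
import Pool.Agent.H95.FB.Gcd

/-!
# Common divisors of polynomials in sequences of units of a number field
-/

set_option autoImplicit false

open Finset Filter Topology MvPolynomial

namespace Pool.Agent.H95.FB

open NumberField IsDedekindDomain
open Pool.Agent.Y742.SF Pool.Agent.Y742.DI Pool.Agent.Y742.AR

variable {K : Type} [Field K] [NumberField K] [IsGalois ℚ K] {𝒰 : Ultrafilter ℕ}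
  {N : ℕ → ℝ} (hN : ∀ t, 1 ≤ N t) {D : PD K}

/-- sequences of units outside the primes of `D`, of bounded height compared with `N` -/
structure SU (D : PD K) (𝒰 : Ultrafilter ℕ) (N : ℕ → ℝ) (f : ℕ → K) : Prop where
  ne : ∀ t, f t ≠ 0
  ti : TI D 𝒰 f
  ti' : TI D 𝒰 (fun t => (f t)⁻¹)
  bd : Bd D N 𝒰 f
  bd' : Bd D N 𝒰 (fun t => (f t)⁻¹)

theorem SU.inv {f : ℕ → K} (h : SU D 𝒰 N f) : SU D 𝒰 N (fun t => (f t)⁻¹) :=
  ⟨fun t => inv_ne_zero (h.ne t), h.ti', by simpa using h.ti, h.bd', by simpa using h.bd⟩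

theorem SU.mul {f g : ℕ → K} (h : SU D 𝒰 N f) (h' : SU D 𝒰 N g) :
    SU D 𝒰 N (fun t => f t * g t) := by
  refine ⟨fun t => mul_ne_zero (h.ne t) (h'.ne t), h.ti.mul h'.ti, ?_, h.bd.mul h'.bd, ?_⟩
  · refine (h.ti'.mul h'.ti').congr (Eventually.of_forall fun t => ?_)
    rw [mul_inv]
  · refine (h.bd'.mul h'.bd').congr (Eventually.of_forall fun t => ?_)
    rw [mul_inv]

include hN in
theorem SU.const {c : K} (hc : c ≠ 0) : SU D 𝒰 N (fun _ => c) :=
  ⟨fun _ => hc, TI.const c, TI.const _, Bd.const hN c, Bd.const hN _⟩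

include hN in
theorem SU.pow {f : ℕ → K} (h : SU D 𝒰 N f) (n : ℕ) : SU D 𝒰 N (fun t => f t ^ n) := by
  induction n with
  | zero => simpa using SU.const hN (D := D) (𝒰 := 𝒰) (one_ne_zero (α := K))
  | succ n ih =>
    have := ih.mul h
    simpa [pow_succ] using this

include hN in
theorem SU.zpow {f : ℕ → K} (h : SU D 𝒰 N f) (n : ℤ) : SU D 𝒰 N (fun t => f t ^ n) := by
  cases n with
  | ofNat n => simpa using h.pow hN n
  | negSucc n =>
    have := (h.pow hN (n + 1)).inv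
    simpa [zpow_negSucc] using this

include hN in
theorem SU.prod {ι : Type} (s : Finset ι) {f : ι → ℕ → K} (h : ∀ i ∈ s, SU D 𝒰 N (f i)) :
    SU D 𝒰 N (fun t => ∏ i ∈ s, f i t) := by
  classical
  induction s using Finset.induction_on with
  | empty => simpa using SU.const hN (D := D) (𝒰 := 𝒰) (one_ne_zero (α := K))
  | insert i s hi ih =>
    have := (h i (Finset.mem_insert_self _ _)).mul (ih fun j hj => h j (Finset.mem_insert_of_mem hj))
    simpa [Finset.prod_insert hi] using this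

theorem exE (f : ℕ → K) (h1 : TI D 𝒰 f) (h2 : Bd D N 𝒰 f) :
    ∃ x : EE D 𝒰 N hN, inc hN x = gm 𝒰 f :=
  (mem_range_inc hN _).2 ⟨gm 𝒰 f, ⟨f, rfl, h1, h2⟩, 1, (R0 D 𝒰 N hN).one_mem, div_one _⟩

theorem exU (hNt : Tendsto N (𝒰 : Filter ℕ) atTop) (f : ℕ → K) (h : SU D 𝒰 N f) :
    ∃ u : (EE D 𝒰 N hN)ˣ, inc hN (u : EE D 𝒰 N hN) = gm 𝒰 f ∧ u ∈ (arDict hN D hNt).U := by
  obtain ⟨x, hx⟩ := exE hN f h.ti h.bd
  have hgi : gm 𝒰 (fun t => (f t)⁻¹) = (gm 𝒰 f)⁻¹ := by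
    apply eq_inv_of_mul_eq_one_left
    rw [← map_mul, ← map_one (gm 𝒰), gm_eq]
    exact Eventually.of_forall fun t => inv_mul_cancel₀ (h.ne t)
  have hg0 : gm 𝒰 f ≠ 0 := by
    intro h0
    rw [← map_zero (gm 𝒰), gm_eq] at h0
    obtain ⟨t, ht⟩ := h0.exists
    exact h.ne t ht
  have hx0 : x ≠ 0 := by
    rintro rfl
    rw [map_zero] at hx
    exact hg0 hx.symm
  refine ⟨Units.mk0 x hx0, hx, ?_⟩
  constructor
  · show TI D 𝒰 (rep (inc hN x))
    rw [hx]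
    refine h.ti.congr ?_
    filter_upwards [rep_gm (𝒰 := 𝒰) f] with t ht
    exact ht.symm
  · show TI D 𝒰 (rep (inc hN (((Units.mk0 x hx0)⁻¹ : (EE D 𝒰 N hN)ˣ) : EE D 𝒰 N hN)))
    rw [Units.val_inv_eq_inv_val, Units.val_mk0, map_inv₀, hx, ← hgi]
    refine h.ti'.congr ?_
    filter_upwards [rep_gm (𝒰 := 𝒰) (fun t => (f t)⁻¹)] with t ht
    exact ht.symm

/-- evaluation of polynomials at germs -/
theorem inc_aeval {m : ℕ} (T : Fin m → ℕ → K) (X : Fin m → EE D 𝒰 N hN)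
    (hX : ∀ j, inc hN (X j) = gm 𝒰 (T j)) (p : MvPolynomial (Fin m) K) :
    inc hN (aeval X p) = gm 𝒰 (fun t => eval (fun j => T j t) p) := by
  induction p using MvPolynomial.induction_on with
  | C a =>
    rw [aeval_C, inc_algebraMap, cg_eq]
    congr 1
    funext t
    rw [eval_C]
  | add p q hp hq =>
    rw [map_add, map_add, hp, hq, ← map_add]
    congr 1
    funext t
    rw [Pi.add_apply, map_add]
  | mul_X p j hp =>
    rw [map_mul, aeval_X, map_mul, hp, hX, ← map_mul]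
    congr 1
    funext t
    rw [Pi.mul_apply, map_mul, eval_X]

omit [IsGalois ℚ K] in
theorem ne_of_TI {f : ℕ → K} (hf : ∀ᶠ t in (𝒰 : Filter ℕ), f t ≠ 0) : gm 𝒰 f ≠ 0 := by
  intro h0
  rw [← map_zero (gm 𝒰), gm_eq] at h0
  obtain ⟨t, ht, ht'⟩ := (h0.and hf).exists
  exact ht' ht

/-- multiplicative independence modulo constants -/
def MInd (𝒰 : Ultrafilter ℕ) {m : ℕ} (T : Fin m → ℕ → K) : Prop :=
  ∀ (w : Fin m → ℤ) (c : K), (∀ᶠ t in (𝒰 : Filter ℕ), ∏ j, T j t ^ w j = c) → w = 0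

theorem exX (hNt : Tendsto N (𝒰 : Filter ℕ) atTop) {m : ℕ} (T : Fin m → ℕ → K)
    (hT : ∀ j, SU D 𝒰 N (T j)) (hi : MInd 𝒰 T) :
    ∃ X : Fin m → (EE D 𝒰 N hN)ˣ, (∀ j, inc hN (X j : EE D 𝒰 N hN) = gm 𝒰 (T j)) ∧
      (∀ j, X j ∈ (arDict hN D hNt).U) ∧
      AlgebraicIndependent K (fun j => (X j : EE D 𝒰 N hN)) := by
  choose X hX hXU using fun j => exU hN hNt (T j) (hT j)
  refine ⟨X, hX, hXU, algIndep (arDict hN D hNt) X hXU ?_⟩
  intro ν hν
  rw [mem_Kx] at hν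
  obtain ⟨c, hc⟩ := hν
  refine hi ν c ?_
  have h1 := congrArg (inc hN) hc
  rw [inc_algebraMap, cg_eq, Units.coe_prod, map_prod] at h1
  have h2 : ∀ j, inc hN (((X j) ^ (ν j) : (EE D 𝒰 N hN)ˣ) : EE D 𝒰 N hN) =
      gm 𝒰 (fun t => T j t ^ (ν j)) := by
    intro j
    rw [Units.val_zpow_eq_zpow_val, map_zpow₀, hX]
    rfl
  simp only [h2] at h1
  have h3 : ∏ j, gm 𝒰 (fun t => T j t ^ (ν j)) = gm 𝒰 (fun t => ∏ j, T j t ^ (ν j)) := by
    rw [← map_prod]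
    congr 1
    funext t
    rw [Finset.prod_apply]
  rw [h3] at h1
  filter_upwards [(gm_eq 𝒰 _ _).1 h1.symm] with t ht
  exact ht

include hN in
/-- **Common divisors of coprime polynomials in independent units are negligible.** -/
theorem gcd_seq (hNt : Tendsto N (𝒰 : Filter ℕ) atTop) {m : ℕ} (hm : 1 ≤ m) (T : Fin m → ℕ → K)
    (hT : ∀ j, SU D 𝒰 N (T j)) (hi : MInd 𝒰 T) (p q : MvPolynomial (Fin m) K) (hq : q ≠ 0)
    (hpq : IsRelPrime q p) (y : ℕ → K) (hy : ∀ᶠ t in (𝒰 : Filter ℕ), y t ≠ 0) (hyT : TI D 𝒰 y)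
    (hyB : Bd D N 𝒰 y) (hpy : TI D 𝒰 (fun t => eval (fun j => T j t) p / y t))
    (hqy : TI D 𝒰 (fun t => eval (fun j => T j t) q / y t)) (ε : ℝ) (hε : 0 < ε) :
    ∀ᶠ t in (𝒰 : Filter ℕ), ∑ v, Real.log (D.av v (y t)) ≤ ε * N t := by
  obtain ⟨X, hX, hXU, hind⟩ := exX hN hNt T hT hi
  obtain ⟨Y, hY⟩ := exE hN y hyT hyB
  have hy0 := ne_of_TI hy
  have hY0 : Y ≠ 0 := by
    rintro rfl
    rw [map_zero] at hY
    exact hy0 hY.symm
  have hdiv : ∀ r : MvPolynomial (Fin m) K, TI D 𝒰 (fun t => eval (fun j => T j t) r / y t) →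
      aeval (fun j => (X j : EE D 𝒰 N hN)) r / Y ∈ (arDict hN D hNt).R := by
    intro r hr
    show TI D 𝒰 (rep (inc hN (aeval (fun j => (X j : EE D 𝒰 N hN)) r / Y)))
    refine hr.congr ?_
    have h1 : inc hN (aeval (fun j => (X j : EE D 𝒰 N hN)) r / Y) =
        gm 𝒰 (fun t => eval (fun j => T j t) r / y t) := by
      rw [map_div₀, inc_aeval hN T _ hX r, hY, div_eq_iff hy0, ← map_mul, gm_eq]
      filter_upwards [hy] with t ht
      rw [Pi.mul_apply, div_mul_cancel₀ _ ht]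
    rw [h1]
    filter_upwards [rep_gm (𝒰 := 𝒰) (fun t => eval (fun j => T j t) r / y t)] with t ht
    exact ht.symm
  have h := gcd_y (arDict hN D hNt) X hXU hm hind p q hq hpq Y hY0 (hdiv p hpy) (hdiv q hqy) ε hε
  have h2 := rep_gm (𝒰 := 𝒰) y
  rw [← hY] at h2
  filter_upwards [h, h2] with t ht ht2
  refine le_trans (le_of_eq ?_) ht
  refine Finset.sum_congr rfl fun v _ => ?_
  show Real.log (D.av v (y t)) = Real.log (D.av v (rep (inc hN Y) t))
  rw [ht2]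

include hN in
/-- **The values `T - ω` have negligible unit part.** -/
theorem low_seq (hNt : Tendsto N (𝒰 : Filter ℕ) atTop) {m : ℕ} (T : Fin m → ℕ → K)
    (hT : ∀ j, SU D 𝒰 N (T j)) (hi : MInd 𝒰 T) (j0 : Fin m) (ω : K) (hω : ω ≠ 0)
    (ε : ℝ) (hε : 0 < ε) :
    ∀ᶠ t in (𝒰 : Filter ℕ), ∑ v, max 0 (Real.log (D.av v (T j0 t))) ≤
      ∑ v, Real.log (D.av v (T j0 t - ω)) + ε * N t := by
  classical
  obtain ⟨X, hX, hXU, hind⟩ := exX hN hNt T hT hi
  obtain ⟨q, hq⟩ : ∃ q : MvPolynomial (Fin m) K, q = MvPolynomial.X j0 - C ω := ⟨_, rfl⟩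
  have h1 : Finsupp.single j0 1 ∈ q.support := by
    have h2 : (0 : Fin m →₀ ℕ) ≠ Finsupp.single j0 1 := by
      intro h
      have := DFunLike.congr_fun h j0
      simp at this
    rw [mem_support_iff, hq, coeff_sub, coeff_C, if_neg h2, sub_zero, coeff_X]
    simp
  have h0 : (0 : Fin m →₀ ℕ) ∈ q.support := by
    have h2 : Finsupp.single j0 1 ≠ (0 : Fin m →₀ ℕ) := by
      intro h
      have := DFunLike.congr_fun h j0
      simp at this
    rw [mem_support_iff, hq, coeff_sub, coeff_C, if_pos rfl, coeff_X, if_neg h2, zero_sub]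
    exact neg_ne_zero.2 hω
  obtain ⟨G, hG⟩ : ∃ G, G = arDict hN D hNt := ⟨_, rfl⟩
  let c : (arDict hN D hNt).Ω → q.support := fun ω' =>
    if 0 ≤ Real.log ((arDict hN D hNt).A (X j0) ω') then ⟨_, h1⟩ else ⟨_, h0⟩
  have h := low (arDict hN D hNt) X hXU hind q c ε hε
  have h2 := rep_gm (𝒰 := 𝒰) (T j0)
  rw [← hX j0] at h2
  have h3 : inc hN (aeval (fun j => (X j : EE D 𝒰 N hN)) q) =
      gm 𝒰 (fun t => eval (fun j => T j t) q) := inc_aeval hN T _ hX q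
  have h4 := rep_gm (𝒰 := 𝒰) (fun t => eval (fun j => T j t) q)
  rw [← h3] at h4
  filter_upwards [h, h2, h4] with t ht ht2 ht4
  rw [Finset.sum_sub_distrib] at ht
  have e1 : ∀ v : (K ≃ₐ[ℚ] K) ⊕ Fin D.s, (arDict hN D hNt).A (X j0) (t, v) = D.av v (T j0 t) := by
    intro v
    show D.av v (rep (inc hN (X j0 : EE D 𝒰 N hN)) t) = _
    rw [ht2]
  have e2 : ∀ v : (K ≃ₐ[ℚ] K) ⊕ Fin D.s,
      ell (arDict hN D hNt) X (fun j => (c (t, v)).1 j) (t, v) =
        max 0 (Real.log (D.av v (T j0 t))) := by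
    intro v
    unfold ell
    simp only [c]
    split_ifs with hc
    · rw [e1] at hc
      rw [max_eq_right hc, Finset.sum_eq_single j0]
      · rw [Finsupp.single_eq_same, Nat.cast_one, one_mul]
        show Real.log ((arDict hN D hNt).A (X j0) (t, v)) = _
        rw [e1]
      · intro j _ hj
        rw [Finsupp.single_eq_of_ne hj, Nat.cast_zero, zero_mul]
      · intro h
        exact absurd (Finset.mem_univ _) h
    · rw [e1] at hc
      rw [max_eq_left (not_le.1 hc).le]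
      simp
  have e3 : ∀ v : (K ≃ₐ[ℚ] K) ⊕ Fin D.s,
      (arDict hN D hNt).lg (aeval (fun j => (X j : EE D 𝒰 N hN)) q) (t, v) =
        Real.log (D.av v (T j0 t - ω)) := by
    intro v
    show Real.log (D.av v (rep (inc hN (aeval (fun j => (X j : EE D 𝒰 N hN)) q)) t)) = _
    rw [ht4, hq, map_sub, eval_X, eval_C]
  rw [Finset.sum_congr rfl fun v _ => e2 v, Finset.sum_congr rfl fun v _ => e3 v] at ht
  linarith

end Pool.Agent.H95.FB
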