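import Mathlib
import Pool.Agent.H95.EB.Dv
import Pool.Agent.H95.FB.Seq

/-!
# The dichotomy: a sum of units which has a large common divisor with a product of conjugate
factors `T - ω` is divisible by the product
-/

set_option autoImplicit false

open Finset Filter Topology MvPolynomial

namespace Pool.Agent.H95.FB

open NumberField IsDedekindDomain
open Pool.Agent.Y742.SF Pool.Agent.Y742.DI Pool.Agent.Y742.AR

variable {K : Type} [Field K] [NumberField K] [IsGalois ℚ K] {𝒰 : Ultrafilter ℕ}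
  {N : ℕ → ℝ} (hN : ∀ t, 1 ≤ N t) {D : PD K}

omit [NumberField K] [IsGalois ℚ K] in
theorem prime_lin {m : ℕ} (j0 : Fin m) (ω : K) :
    Prime (MvPolynomial.X j0 - C ω : MvPolynomial (Fin m) K) := by
  have h := Pool.Agent.H95.EB.prime_toMv j0 (Polynomial.prime_X_sub_C ω)
  simpa [Polynomial.toMvPolynomial] using h

omit [NumberField K] [IsGalois ℚ K] in
theorem relPrime_lin {m : ℕ} (j0 : Fin m) (ω : K) (Z : MvPolynomial (Fin m) K)
    (h : ¬ (MvPolynomial.X j0 - C ω) ∣ Z) : IsRelPrime (MvPolynomial.X j0 - C ω) Z := by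
  intro d hd hd'
  obtain ⟨e, he⟩ := hd
  rcases (prime_lin j0 ω).irreducible.isUnit_or_isUnit he with h1 | h1
  · exact h1
  · exfalso
    apply h
    obtain ⟨u, rfl⟩ := h1
    rw [he]
    exact (Units.mul_right_dvd).2 hd'

omit [NumberField K] [IsGalois ℚ K] in
theorem relPrime_prod {m : ℕ} (j0 : Fin m) (R : Finset K) (Z : MvPolynomial (Fin m) K)
    (h : ∀ ω ∈ R, ¬ (MvPolynomial.X j0 - C ω) ∣ Z) :
    IsRelPrime (∏ ω ∈ R, (MvPolynomial.X j0 - C ω)) Z := by
  classical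
  induction R using Finset.induction_on with
  | empty =>
    rw [Finset.prod_empty]
    exact isRelPrime_one_left
  | insert ω R hω ih =>
    rw [Finset.prod_insert hω]
    exact IsRelPrime.mul_left (relPrime_lin j0 ω Z (h ω (Finset.mem_insert_self _ _)))
      (ih fun w hw => h w (Finset.mem_insert_of_mem hw))

omit [NumberField K] [IsGalois ℚ K] in
theorem prod_dvd {m : ℕ} (j0 : Fin m) (R : Finset K) (Z : MvPolynomial (Fin m) K)
    (h : ∀ ω ∈ R, (MvPolynomial.X j0 - C ω) ∣ Z) :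
    (∏ ω ∈ R, (MvPolynomial.X j0 - C ω)) ∣ Z := by
  refine Finset.prod_dvd_of_coprime ?_ h
  intro ω _ ω' _ hne
  show IsCoprime (MvPolynomial.X j0 - C ω) (MvPolynomial.X j0 - C ω')
  have h1 : ω' - ω ≠ 0 := sub_ne_zero.2 (Ne.symm hne)
  refine ⟨C (ω' - ω)⁻¹, - C (ω' - ω)⁻¹, ?_⟩
  have h2 : C (ω' - ω)⁻¹ * (MvPolynomial.X j0 - C ω) + -C (ω' - ω)⁻¹ * (MvPolynomial.X j0 - C ω') =
      (C ((ω' - ω)⁻¹ * (ω' - ω)) : MvPolynomial (Fin m) K) := by
    rw [C_mul, C_sub]
    ring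
  rw [h2, inv_mul_cancel₀ h1, C_1]

include hN in
/-- values of polynomials at units are integral and bounded -/
theorem TI_eval {m : ℕ} (T : Fin m → ℕ → K) (hT : ∀ j, SU D 𝒰 N (T j))
    (Q : MvPolynomial (Fin m) K) : TI D 𝒰 (fun t => eval (fun j => T j t) Q) ∧
      Bd D N 𝒰 (fun t => eval (fun j => T j t) Q) := by
  induction Q using MvPolynomial.induction_on with
  | C a =>
    simp only [eval_C]
    exact ⟨TI.const a, Bd.const hN a⟩
  | add p q hp hq =>
    simp only [map_add]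
    exact ⟨hp.1.add hq.1, hp.2.add hN hq.2⟩
  | mul_X p j hp =>
    simp only [map_mul, eval_X]
    exact ⟨hp.1.mul (hT j).ti, hp.2.mul (hT j).bd⟩

omit [NumberField K] [IsGalois ℚ K] in
theorem T_ne {m : ℕ} (T : Fin m → ℕ → K) (hi : MInd 𝒰 T) (j0 : Fin m) (ω : K) :
    ∀ᶠ t in (𝒰 : Filter ℕ), T j0 t - ω ≠ 0 := by
  classical
  rw [Ultrafilter.eventually_not]
  intro h
  have h1 := hi (fun j => if j = j0 then 1 else 0) ω (by
    filter_upwards [h] with t ht
    rw [Finset.prod_eq_single j0]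
    · rw [if_pos rfl, zpow_one]
      exact sub_eq_zero.1 ht
    · intro j _ hj
      rw [if_neg hj, zpow_zero]
    · intro h
      exact absurd (Finset.mem_univ _) h)
  have h2 := congrFun h1 j0
  rw [if_pos rfl] at h2
  exact one_ne_zero h2

include hN in
/-- **The dichotomy.** -/
theorem core (hNt : Tendsto N (𝒰 : Filter ℕ) atTop) {m : ℕ} (T : Fin m → ℕ → K)
    (hT : ∀ j, SU D 𝒰 N (T j)) (hi : MInd 𝒰 T) (j0 : Fin m) (R : Finset K)
    (hR0 : ∀ ω ∈ R, ω ≠ 0) (Z : MvPolynomial (Fin m) K) (s z : ℕ → K) (hs : SU D 𝒰 N s)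
    (hz : ∀ᶠ t in (𝒰 : Filter ℕ), z t = s t * eval (fun j => T j t) Z)
    (horb : ∀ ω ∈ R, TI D 𝒰 (fun t => z t / (T j0 t - ω)) → ∀ ω' ∈ R,
      TI D 𝒰 (fun t => z t / (T j0 t - ω')))
    (δ : ℝ) (hδ : 0 < δ)
    (hbig : ∀ᶠ t in (𝒰 : Filter ℕ), δ * N t ≤ ∑ v, max 0 (Real.log (D.av v (T j0 t))))
    (g : ℕ → K) (hg0 : ∀ᶠ t in (𝒰 : Filter ℕ), g t ≠ 0) (hgT : TI D 𝒰 g) (hgB : Bd D N 𝒰 g)
    (hgf : TI D 𝒰 (fun t => (∏ ω ∈ R, (T j0 t - ω)) / g t))
    (hgz : TI D 𝒰 (fun t => z t / g t)) (ε : ℝ) (hε : 0 < ε)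
    (hglarge : ∀ᶠ t in (𝒰 : Filter ℕ), ε * N t ≤ ∑ v, Real.log (D.av v (g t))) :
    TI D 𝒰 (fun t => z t / ∏ ω ∈ R, (T j0 t - ω)) := by
  classical
  have hm : 1 ≤ m := by
    have := j0.2
    omega
  have hNpos : ∀ t, 0 < N t := fun t => by linarith [hN t]
  have hev : ∀ ω t, eval (fun j => T j t) (MvPolynomial.X j0 - C ω : MvPolynomial (Fin m) K) =
      T j0 t - ω := by
    intro ω t
    rw [map_sub, eval_X, eval_C]
  -- some factor divides `Z`
  have h1 : ∃ ω ∈ R, (MvPolynomial.X j0 - C ω) ∣ Z := by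
    by_contra hcon
    push Not at hcon
    have hrel := relPrime_prod j0 R Z hcon
    have hne : (∏ ω ∈ R, (MvPolynomial.X j0 - C ω) : MvPolynomial (Fin m) K) ≠ 0 :=
      Finset.prod_ne_zero_iff.2 fun ω _ => (prime_lin j0 ω).ne_zero
    have h2 := gcd_seq hN hNt hm T hT hi Z _ hne hrel g hg0 hgT hgB (by
      refine (hs.ti'.mul hgz).congr ?_
      filter_upwards [hz] with t ht
      rw [ht, ← mul_div_assoc, inv_mul_cancel_left₀ (hs.ne t)]) (by
      refine hgf.congr (Eventually.of_forall fun t => ?_)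
      rw [map_prod]
      simp only [hev]) (ε / 2) (by linarith)
    obtain ⟨t, h3, h4⟩ := (h2.and hglarge).exists
    have := hNpos t
    nlinarith
  obtain ⟨ω0, hω0, hdvd⟩ := h1
  -- the quotient by a factor which divides `Z` is integral
  have hquot : ∀ Q F : MvPolynomial (Fin m) K, Z = F * Q →
      (∀ᶠ t in (𝒰 : Filter ℕ), eval (fun j => T j t) F ≠ 0) →
      TI D 𝒰 (fun t => z t / eval (fun j => T j t) F) := by
    intro Q F hF hne
    refine (hs.ti.mul (TI_eval hN T hT Q).1).congr ?_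
    filter_upwards [hz, hne] with t ht ht2
    rw [ht, hF, map_mul]
    field_simp
  have h2 : TI D 𝒰 (fun t => z t / (T j0 t - ω0)) := by
    obtain ⟨Q, hQ⟩ := hdvd
    have h3 := hquot Q _ hQ (by
      simp only [hev]
      exact T_ne T hi j0 ω0)
    simpa only [hev] using h3
  have h3 := horb ω0 hω0 h2
  -- all factors divide `Z`
  have h4 : ∀ ω ∈ R, (MvPolynomial.X j0 - C ω) ∣ Z := by
    intro ω hω
    by_contra hcon
    have hrel := relPrime_lin j0 ω Z hcon
    have h5 := TI_eval hN T hT (MvPolynomial.X j0 - C ω)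
    simp only [hev] at h5
    have h6 := gcd_seq hN hNt hm T hT hi Z _ (prime_lin j0 ω).ne_zero hrel
      (fun t => T j0 t - ω) (T_ne T hi j0 ω) h5.1 h5.2 (by
      refine (hs.ti'.mul (h3 ω hω)).congr ?_
      filter_upwards [hz] with t ht
      rw [ht, ← mul_div_assoc, inv_mul_cancel_left₀ (hs.ne t)]) (by
      refine (TI.const (1 : K)).congr ?_
      filter_upwards [T_ne T hi j0 ω] with t ht
      rw [hev, div_self ht]) (δ / 4) (by linarith)
    have h7 := low_seq hN hNt T hT hi j0 ω (hR0 ω hω) (δ / 4) (by linarith)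
    obtain ⟨t, h8, h9, h10⟩ := (h6.and (h7.and hbig)).exists
    have := hNpos t
    nlinarith
  obtain ⟨Q, hQ⟩ := prod_dvd j0 R Z h4
  have h5 := hquot Q _ hQ (by
    have h6 : ∀ᶠ t in (𝒰 : Filter ℕ), ∀ ω ∈ R, T j0 t - ω ≠ 0 :=
      (Filter.eventually_all_finset R).2 fun ω _ => T_ne T hi j0 ω
    filter_upwards [h6] with t ht
    rw [map_prod]
    simp only [hev]
    exact Finset.prod_ne_zero_iff.2 ht)
  refine h5.congr (Eventually.of_forall fun t => ?_)
  rw [map_prod]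
  simp only [hev]

end Pool.Agent.H95.FB
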