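import Mathlib
import Pool.Agent.H95.FB.Seq

/-!
# Integers and powers in a number field
-/

set_option autoImplicit false

open Finset Filter Topology

namespace Pool.Agent.H95.FB

open NumberField IsDedekindDomain
open Pool.Agent.Y742.SF Pool.Agent.Y742.DI Pool.Agent.Y742.AR

variable {K : Type} [Field K] [NumberField K]

theorem fv_zpow_le {v : HeightOneSpectrum (𝓞 K)} {g : K} (h : fv v g = 1) (e : ℤ) :
    fv v (g ^ e) = 1 := by
  have h1 : fv v (g ^ e) = (fv v g) ^ e := map_zpow₀ (FinitePlace.mk v) g e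
  rw [h1, h, one_zpow]

/-- almost all places are trivial at a given number -/
theorem finite_ne_one (g : K) (hg : g ≠ 0) :
    {v : HeightOneSpectrum (𝓞 K) | fv v g ≠ 1}.Finite := by
  obtain ⟨x, y, hy, rfl⟩ := IsFractionRing.div_surjective (A := 𝓞 K) g
  have hy0 : y ≠ 0 := nonZeroDivisors.ne_zero hy
  have hx0 : x ≠ 0 := by
    rintro rfl
    simp at hg
  have hf : ∀ x : 𝓞 K, x ≠ 0 → {v : HeightOneSpectrum (𝓞 K) | fv v (x : K) ≠ 1}.Finite := by
    intro x hx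
    have h2 := Ideal.finite_factors (I := Ideal.span {x}) (by
      rw [Ne, Ideal.zero_eq_bot, Ideal.span_singleton_eq_bot]
      exact hx)
    refine h2.subset fun v hv => ?_
    rw [Set.mem_ofPred_eq, Ideal.dvd_span_singleton]
    rw [Set.mem_ofPred_eq, Ne, fv_eq_one_iff, not_not] at hv
    exact hv
  refine ((hf x hx0).union (hf y hy0)).subset ?_
  intro v hv
  by_contra hcon
  rw [Set.mem_union, not_or] at hcon
  obtain ⟨h1, h2⟩ := hcon
  rw [Set.mem_ofPred_eq, not_not] at h1 h2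
  apply hv
  rw [fv_div]
  have h3 : fv v (algebraMap (𝓞 K) K x) = 1 := h1
  have h4 : fv v (algebraMap (𝓞 K) K y) = 1 := h2
  rw [h3, h4, div_one]

variable [IsGalois ℚ K] {𝒰 : Ultrafilter ℕ} {N : ℕ → ℝ} {D : PD K}

theorem log_av_zpow (v : (K ≃ₐ[ℚ] K) ⊕ Fin D.s) (g : K) (hg : g ≠ 0) (e : ℤ) :
    Real.log (D.av v (g ^ e)) = e * Real.log (D.av v g) := by
  have hn : ∀ n : ℕ, Real.log (D.av v (g ^ n)) = n * Real.log (D.av v g) := by
    intro n
    induction n with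
    | zero => simp [D.av_one]
    | succ n ih =>
      rw [pow_succ, D.av_mul, Real.log_mul (D.av_pos v _ (pow_ne_zero _ hg)).ne'
        (D.av_pos v _ hg).ne', ih]
      push_cast
      ring
  cases e with
  | ofNat n => simpa using hn n
  | negSucc n =>
    rw [zpow_negSucc, av_inv _ _ (pow_ne_zero _ hg), hn]
    push_cast
    ring

/-- **Powers of a fixed unit.** -/
theorem SU.zpowN (hN : ∀ t, 1 ≤ N t) (g : K) (hg0 : g ≠ 0)
    (h1 : ∀ v : HeightOneSpectrum (𝓞 K), (∀ w, v ≠ D.P w) → fv v g = 1)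
    (e : ℕ → ℤ) (B : ℝ) (hB0 : 0 ≤ B) (hB : ∀ᶠ t in (𝒰 : Filter ℕ), |(e t : ℝ)| ≤ B * N t) :
    SU D 𝒰 N (fun t => g ^ e t) := by
  have hTI : ∀ e : ℕ → ℤ, TI D 𝒰 (fun t => g ^ e t) := by
    intro e
    refine ⟨1, one_ne_zero, Eventually.of_forall fun t => ?_⟩
    have h2 : ((1 : 𝓞 K) : K) = 1 := rfl
    rw [h2, one_mul]
    intro w hw
    rw [fv_zpow_le (h1 w hw)]
  have hBd : ∀ e : ℕ → ℤ, (∀ᶠ t in (𝒰 : Filter ℕ), |(e t : ℝ)| ≤ B * N t) →
      Bd D N 𝒰 (fun t => g ^ e t) := by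
    intro e hB
    obtain ⟨C, hC⟩ : ∃ C : ℝ, C = ∑ v, |Real.log (D.av v g)| := ⟨_, rfl⟩
    have hC0 : 0 ≤ C := by rw [hC]; exact Finset.sum_nonneg fun _ _ => abs_nonneg _
    refine ⟨B * C, mul_nonneg hB0 hC0, ?_⟩
    filter_upwards [hB] with t ht v
    rw [← Real.log_le_iff_le_exp (D.av_pos v _ (zpow_ne_zero _ hg0)), log_av_zpow v g hg0]
    have h3 : |Real.log (D.av v g)| ≤ C := by
      rw [hC]
      exact Finset.single_le_sum (f := fun v => |Real.log (D.av v g)|)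
        (fun _ _ => abs_nonneg _) (Finset.mem_univ v)
    calc (e t : ℝ) * Real.log (D.av v g) ≤ |(e t : ℝ) * Real.log (D.av v g)| := le_abs_self _
      _ = |(e t : ℝ)| * |Real.log (D.av v g)| := abs_mul _ _
      _ ≤ (B * N t) * C := mul_le_mul ht h3 (abs_nonneg _) (by
        have := hN t
        positivity)
      _ = B * C * N t := by ring
  have hneg : (fun t => (g ^ e t)⁻¹) = fun t => g ^ (-e t) := by
    funext t
    rw [zpow_neg]
  refine ⟨fun t => zpow_ne_zero _ hg0, hTI e, ?_, hBd e hB, ?_⟩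
  · rw [hneg]
    exact hTI _
  · rw [hneg]
    refine hBd _ ?_
    filter_upwards [hB] with t ht
    push_cast
    rwa [abs_neg]

omit [IsGalois ℚ K] in
theorem fv_intCast (v : HeightOneSpectrum (𝓞 K)) (m : ℤ) : fv v (m : K) ≤ 1 := by
  have h := fv_int v (m : 𝓞 K)
  have h2 : ((m : 𝓞 K) : K) = (m : K) := by simp
  rwa [h2] at h

/-- integers are integral -/
theorem TI_int (m : ℕ → ℤ) : TI D 𝒰 (fun t => (m t : K)) := by
  refine ⟨1, one_ne_zero, Eventually.of_forall fun t => ?_⟩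
  have h2 : ((1 : 𝓞 K) : K) = 1 := rfl
  rw [h2, one_mul]
  intro w _
  exact fv_intCast w _

theorem Bd_int (hN : ∀ t, 1 ≤ N t) (m : ℕ → ℤ) (C : ℝ) (hC : 0 ≤ C)
    (h : ∀ᶠ t in (𝒰 : Filter ℕ), |(m t : ℝ)| ≤ Real.exp (C * N t)) :
    Bd D N 𝒰 (fun t => (m t : K)) := by
  refine ⟨C, hC, ?_⟩
  filter_upwards [h] with t ht v
  rcases v with σ | w
  · show ‖D.ψ (σ (m t : K))‖ ≤ _
    rw [map_intCast, map_intCast, Complex.norm_intCast]
    exact ht
  · refine (fv_intCast (D.P w) (m t)).trans ?_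
    rw [Real.one_le_exp_iff]
    have := hN t
    positivity

/-- the sum of the logarithms of an integer which is prime to the given primes -/
theorem sum_log_int (m : ℕ)
    (hco : ∀ w, Nat.Coprime m (Ideal.absNorm (D.P w).asIdeal)) :
    Real.log m ≤ ∑ v, Real.log (D.av v ((m : ℤ) : K)) := by
  classical
  rw [Fintype.sum_sum_type]
  have h1 : ∀ w : Fin D.s, Real.log (D.av (Sum.inr w) ((m : ℤ) : K)) = 0 := by
    intro w
    have h2 : fv (D.P w) ((m : 𝓞 K) : K) = 1 := by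
      rw [fv_eq_one_iff]
      intro hmem
      have h3 : (Ideal.absNorm (D.P w).asIdeal : 𝓞 K) ∈ (D.P w).asIdeal := Ideal.absNorm_mem _
      have h4 := Nat.isCoprime_iff_coprime.2 (hco w)
      obtain ⟨a, b, hab⟩ := h4
      apply (D.P w).isPrime.ne_top
      rw [Ideal.eq_top_iff_one]
      have h5 : (1 : 𝓞 K) = (a : 𝓞 K) * (m : 𝓞 K) +
          (b : 𝓞 K) * (Ideal.absNorm (D.P w).asIdeal : 𝓞 K) := by
        have := congrArg (Int.cast : ℤ → 𝓞 K) hab
        push_cast at this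
        exact this.symm
      rw [h5]
      exact add_mem (Ideal.mul_mem_left _ _ hmem) (Ideal.mul_mem_left _ _ h3)
    have h3 : D.av (Sum.inr w) ((m : ℤ) : K) = fv (D.P w) ((m : 𝓞 K) : K) := by
      show fv (D.P w) ((m : ℤ) : K) = _
      have h4 : ((m : ℤ) : K) = ((m : 𝓞 K) : K) := by simp
      rw [h4]
    rw [h3, h2, Real.log_one]
  have h2 : ∀ σ : K ≃ₐ[ℚ] K, Real.log (D.av (Sum.inl σ) ((m : ℤ) : K)) = Real.log m := by
    intro σ
    show Real.log ‖D.ψ (σ ((m : ℤ) : K))‖ = _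
    rw [map_intCast, map_intCast, Complex.norm_intCast, Int.cast_natCast, Nat.abs_cast]
  rw [Finset.sum_congr rfl fun w _ => h1 w, Finset.sum_const_zero, add_zero,
    Finset.sum_congr rfl fun σ _ => h2 σ, Finset.sum_const, nsmul_eq_mul]
  have h3 : 1 ≤ (Finset.univ : Finset (K ≃ₐ[ℚ] K)).card := Finset.card_pos.2 ⟨AlgEquiv.refl, by simp⟩
  have h4 : (1 : ℝ) ≤ ((Finset.univ : Finset (K ≃ₐ[ℚ] K)).card : ℝ) := by exact_mod_cast h3
  have h5 : 0 ≤ Real.log m := Real.log_natCast_nonneg m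
  nlinarith

/-- **Integral quotients of integers with large prime factors are integers.** -/
theorem dvd_of_TI (z : ℕ → ℤ) (M : ℕ → ℕ)
    (hM0 : ∀ᶠ t in (𝒰 : Filter ℕ), M t ≠ 0)
    (hM : ∀ A : ℕ, ∀ᶠ t in (𝒰 : Filter ℕ), ∀ q : ℕ, q.Prime → q ∣ M t → A < q)
    (h : TI D 𝒰 (fun t => ((z t : ℤ) : K) / ((M t : ℕ) : K))) :
    ∀ᶠ t in (𝒰 : Filter ℕ), ((M t : ℕ) : ℤ) ∣ z t := by
  classical
  obtain ⟨c, hc, hTI⟩ := h
  have hnorm : ∀ x : 𝓞 K, x ≠ 0 → Algebra.norm ℤ x ≠ 0 := fun x hx =>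
    Algebra.norm_ne_zero_iff.2 hx
  filter_upwards [hTI, hM0, hM (Algebra.norm ℤ c).natAbs,
    (Filter.eventually_all).2 fun v : Fin D.s => hM (Algebra.norm ℤ (D.U v)).natAbs]
    with t h1 h0 h2 h3
  rcases eq_or_ne (z t) 0 with hz | hz
  · rw [hz]
    exact dvd_zero _
  have hMK : ((M t : ℕ) : K) ≠ 0 := by exact_mod_cast h0
  obtain ⟨E, y, -, hy⟩ := D.clear1 _ h1
    (∑ v, |Real.log (fv (D.P v) ((c : K) * (((z t : ℤ) : K) / ((M t : ℕ) : K))))|) (fun v => by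
    have hne : (c : K) * (((z t : ℤ) : K) / ((M t : ℕ) : K)) ≠ 0 := by
      refine mul_ne_zero (RingOfIntegers.coe_ne_zero_iff.2 hc) (div_ne_zero ?_ hMK)
      exact_mod_cast hz
    rw [← Real.log_le_iff_le_exp (fv_pos _ _ hne)]
    refine (le_abs_self _).trans ?_
    exact Finset.single_le_sum
      (f := fun v => |Real.log (fv (D.P v) ((c : K) * (((z t : ℤ) : K) / ((M t : ℕ) : K))))|)
      (fun _ _ => abs_nonneg _) (Finset.mem_univ v))
  have h4 : (algebraMap ℤ (𝓞 K) (M t)) * y = (∏ v, D.U v ^ E v) * c * algebraMap ℤ (𝓞 K) (z t) := by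
    apply RingOfIntegers.coe_injective
    have e1 : ((algebraMap ℤ (𝓞 K) ((M t : ℕ) : ℤ) : 𝓞 K) : K) = ((M t : ℕ) : K) := by simp
    have e2 : ((algebraMap ℤ (𝓞 K) (z t) : 𝓞 K) : K) = ((z t : ℤ) : K) := by simp
    have e3 : ∀ a b : 𝓞 K, ((a * b : 𝓞 K) : K) = (a : K) * (b : K) := fun a b => by push_cast; rfl
    show (((algebraMap ℤ (𝓞 K) ((M t : ℕ) : ℤ)) * y : 𝓞 K) : K) =
      (((∏ v, D.U v ^ E v) * c * algebraMap ℤ (𝓞 K) (z t) : 𝓞 K) : K)
    rw [e3, e3, e3, e1, e2, hy]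
    field_simp
  have h5 := congrArg (Algebra.norm ℤ) h4
  rw [map_mul, map_mul, map_mul, Algebra.norm_algebraMap, Algebra.norm_algebraMap, map_prod] at h5
  have hcop : ∀ x : 𝓞 K, x ≠ 0 → (∀ q : ℕ, q.Prime → q ∣ M t → (Algebra.norm ℤ x).natAbs < q) →
      IsCoprime ((M t : ℕ) : ℤ) (Algebra.norm ℤ x) := by
    intro x hx hq
    rw [Int.isCoprime_iff_gcd_eq_one, Int.gcd_eq_natAbs, Int.natAbs_natCast]
    apply Nat.Coprime.gcd_eq_one
    rw [Nat.Coprime, Nat.gcd_comm]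
    by_contra hne
    obtain ⟨p, hp, hpd⟩ := Nat.exists_prime_and_dvd hne
    have h6 := (Nat.dvd_gcd_iff.1 hpd)
    have h7 := hq p hp h6.2
    have h8 := Nat.le_of_dvd (Int.natAbs_pos.2 (hnorm x hx)) h6.1
    omega
  have h6 : IsCoprime ((M t : ℕ) : ℤ) ((∏ v, Algebra.norm ℤ (D.U v ^ E v)) * Algebra.norm ℤ c) := by
    refine IsCoprime.mul_right (IsCoprime.prod_right fun v _ => ?_) (hcop c hc h2)
    rw [map_pow]
    exact (hcop _ (D.U_ne v) (h3 v)).pow_right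
  have h7 : ((M t : ℕ) : ℤ) ^ Module.finrank ℤ (𝓞 K) ∣ (z t) ^ Module.finrank ℤ (𝓞 K) := by
    have h8 : ((M t : ℕ) : ℤ) ^ Module.finrank ℤ (𝓞 K) ∣
        ((∏ v, Algebra.norm ℤ (D.U v ^ E v)) * Algebra.norm ℤ c) *
          (z t) ^ Module.finrank ℤ (𝓞 K) := ⟨_, h5.symm⟩
    exact (h6.pow_left).dvd_of_dvd_mul_left h8
  refine (Int.pow_dvd_pow_iff ?_).1 h7
  rw [RingOfIntegers.rank]
  exact Module.finrank_pos.ne'

end Pool.Agent.H95.FB
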