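import Mathlib
import Pool.Agent.H95.FB.Core
import Pool.Agent.H95.FB.Int

/-!
# From the dichotomy to divisibility of integers
-/

set_option autoImplicit false

open Finset Filter Topology MvPolynomial

namespace Pool.Agent.H95.FB

open NumberField IsDedekindDomain
open Pool.Agent.Y742.SF Pool.Agent.Y742.DI Pool.Agent.Y742.AR

variable {K : Type} [Field K] [NumberField K] [IsGalois ℚ K] {𝒰 : Ultrafilter ℕ}
  {N : ℕ → ℝ} {D : PD K}

omit [NumberField K] [IsGalois ℚ K] in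
/-- Laurent polynomials -/
theorem laurent {m k : ℕ} (T : Fin m → K) (hT : ∀ j, T j ≠ 0) (c : Fin k → K)
    (A : Fin k → Fin m → ℤ) (B : ℕ) (hB : ∀ i j, -(B : ℤ) ≤ A i j) :
    ∑ i, c i * ∏ j, T j ^ A i j = (∏ j, T j ^ (-(B : ℤ))) *
      eval T (∑ i, C (c i) * ∏ j, X j ^ (A i j + B).toNat) := by
  rw [map_sum, Finset.mul_sum]
  refine Finset.sum_congr rfl fun i _ => ?_
  rw [map_mul, eval_C, map_prod, mul_left_comm, ← Finset.prod_mul_distrib]
  congr 1
  refine Finset.prod_congr rfl fun j _ => ?_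
  have h : ((A i j + B).toNat : ℤ) = A i j + B := Int.toNat_of_nonneg (by linarith [hB i j])
  rw [map_pow, eval_X, ← zpow_natCast, h, ← zpow_add₀ (hT j)]
  congr 1
  ring

theorem fin_step (hN : ∀ t, 1 ≤ N t) (hNt : Tendsto N (𝒰 : Filter ℕ) atTop) {m : ℕ}
    (T : Fin m → ℕ → K) (hT : ∀ j, SU D 𝒰 N (T j)) (hi : MInd 𝒰 T) (j0 : Fin m) (d : ℕ)
    (c0 κ b : K) (hc0 : c0 ≠ 0) (hκ : κ ≠ 0) (R : Finset K) (hR0 : ∀ ω ∈ R, ω ≠ 0)
    (hR : ∀ x : K, ∏ ω ∈ R, (x - ω) = x ^ (2 * d) - b)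
    (M : ℕ → ℕ) (hM0 : ∀ᶠ t in (𝒰 : Filter ℕ), M t ≠ 0)
    (hMx : ∀ᶠ t in (𝒰 : Filter ℕ), κ * ((M t : ℕ) : K) =
      c0 * (T j0 t ^ d)⁻¹ * (T j0 t ^ (2 * d) - b))
    {k : ℕ} (cZ : Fin k → K) (A : Fin k → Fin m → ℤ) (z : ℕ → ℤ)
    (hz : ∀ᶠ t in (𝒰 : Filter ℕ), ((z t : ℤ) : K) = ∑ i, cZ i * ∏ j, T j t ^ A i j)
    (horb : ∀ ω ∈ R, TI D 𝒰 (fun t => ((z t : ℤ) : K) / (T j0 t - ω)) → ∀ ω' ∈ R,
      TI D 𝒰 (fun t => ((z t : ℤ) : K) / (T j0 t - ω')))
    (δ : ℝ) (hδ : 0 < δ)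
    (hbig : ∀ᶠ t in (𝒰 : Filter ℕ), δ * N t ≤ ∑ v, max 0 (Real.log (D.av v (T j0 t))))
    (hMle : ∀ᶠ t in (𝒰 : Filter ℕ), (M t : ℝ) ≤ Real.exp (N t))
    (hMge : ∀ᶠ t in (𝒰 : Filter ℕ), δ * N t ≤ Real.log (M t))
    (hM : ∀ A : ℕ, ∀ᶠ t in (𝒰 : Filter ℕ), ∀ q : ℕ, q.Prime → q ∣ M t → A < q)
    (ε : ℝ) (hε : 0 < ε)
    (hgcd : ∀ᶠ t in (𝒰 : Filter ℕ), (M t : ℝ) ^ ε ≤ (Int.gcd (z t) (M t) : ℝ)) :
    ∀ᶠ t in (𝒰 : Filter ℕ), ((M t : ℕ) : ℤ) ∣ z t := by
  classical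
  obtain ⟨B, hB⟩ : ∃ B : ℕ, B = ∑ i, ∑ j, (A i j).natAbs := ⟨_, rfl⟩
  have hB1 : ∀ i j, -(B : ℤ) ≤ A i j := by
    intro i j
    have h1 : (A i j).natAbs ≤ B := by
      rw [hB]
      refine (Finset.single_le_sum (f := fun j => (A i j).natAbs) (fun _ _ => Nat.zero_le _)
        (Finset.mem_univ j)).trans ?_
      exact Finset.single_le_sum (f := fun i => ∑ j, (A i j).natAbs) (fun _ _ => Nat.zero_le _)
        (Finset.mem_univ i)
    omega
  have hs : SU D 𝒰 N (fun t => ∏ j, T j t ^ (-(B : ℤ))) :=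
    SU.prod hN Finset.univ (f := fun j t => T j t ^ (-(B : ℤ))) fun j _ => (hT j).zpow hN _
  have hg1 : ∀ t, M t ≠ 0 → 1 ≤ Int.gcd (z t) (M t) := by
    intro t ht
    refine Nat.pos_of_ne_zero fun h => ?_
    rw [Int.gcd_eq_zero_iff] at h
    exact ht (by exact_mod_cast h.2)
  have key := core hN hNt T hT hi j0 R hR0 (∑ i, C (cZ i) * ∏ j, X j ^ (A i j + B).toNat)
    (fun t => ∏ j, T j t ^ (-(B : ℤ))) (fun t => ((z t : ℤ) : K)) hs (by
      filter_upwards [hz] with t ht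
      rw [ht]
      exact laurent _ (fun j => (hT j).ne t) cZ A B hB1) horb δ hδ hbig
    (fun t => (((Int.gcd (z t) (M t) : ℕ) : ℤ) : K)) (by
      filter_upwards [hM0] with t ht
      have := hg1 t ht
      have h2 : Int.gcd (z t) (M t) ≠ 0 := by omega
      exact_mod_cast h2) (TI_int _) (Bd_int hN _ 1 zero_le_one (by
      filter_upwards [hMle, hM0] with t ht h0
      rw [one_mul]
      refine le_trans ?_ ht
      have h1 : Int.gcd (z t) (M t) ≤ M t := by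
        have h2 : Int.gcd (z t) (M t) ∣ M t := by
          have := Int.gcd_dvd_right (z t) (M t)
          exact_mod_cast this
        exact Nat.le_of_dvd (Nat.pos_of_ne_zero h0) h2
      rw [Int.cast_natCast, Nat.abs_cast]
      exact_mod_cast h1)) (by
      -- the product over the factors divided by the common divisor
      have h1 : TI D 𝒰 (fun t => (κ * c0⁻¹) * T j0 t ^ d *
          (((M t / Int.gcd (z t) (M t) : ℕ) : ℤ) : K)) :=
        ((TI.const (κ * c0⁻¹)).mul ((hT j0).pow hN d).ti).mul (TI_int _)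
      refine h1.congr ?_
      filter_upwards [hMx, hM0] with t ht h0
      have hT0 : T j0 t ^ d ≠ 0 := pow_ne_zero _ ((hT j0).ne t)
      have h2 : Int.gcd (z t) (M t) ∣ M t := by
        have := Int.gcd_dvd_right (z t) (M t)
        exact_mod_cast this
      have hg0 : ((Int.gcd (z t) (M t) : ℕ) : K) ≠ 0 := by
        have := hg1 t h0
        have h3 : Int.gcd (z t) (M t) ≠ 0 := by omega
        exact_mod_cast h3
      rw [hR, Int.cast_natCast, Int.cast_natCast, Nat.cast_div h2 hg0]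
      have h3 : T j0 t ^ (2 * d) - b = κ * ((M t : ℕ) : K) * c0⁻¹ * T j0 t ^ d := by
        rw [ht]
        field_simp
      rw [h3]
      ring) (by
      have h1 : TI D 𝒰 (fun t => ((z t / (Int.gcd (z t) (M t) : ℕ) : ℤ) : K)) := TI_int _
      refine h1.congr ?_
      filter_upwards [hM0] with t h0
      have hg0 : (((Int.gcd (z t) (M t) : ℕ) : ℤ) : K) ≠ 0 := by
        have := hg1 t h0
        have h3 : Int.gcd (z t) (M t) ≠ 0 := by omega
        exact_mod_cast h3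
      rw [Int.cast_div (Int.gcd_dvd_left _ _) hg0]) (ε * δ) (mul_pos hε hδ) (by
      have hco : ∀ᶠ t in (𝒰 : Filter ℕ), ∀ w, Nat.Coprime (Int.gcd (z t) (M t))
          (Ideal.absNorm (D.P w).asIdeal) := by
        filter_upwards [(Filter.eventually_all).2 fun w : Fin D.s =>
          hM (Ideal.absNorm (D.P w).asIdeal)] with t h1 w
        rw [Nat.Coprime]
        by_contra hne
        obtain ⟨p, hp, hpd⟩ := Nat.exists_prime_and_dvd hne
        have h6 := (Nat.dvd_gcd_iff.1 hpd)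
        have h7 : p ∣ M t := by
          have := Int.gcd_dvd_right (z t) (M t)
          exact h6.1.trans (by exact_mod_cast this)
        have h8 := h1 w p hp h7
        have h9 : Ideal.absNorm (D.P w).asIdeal ≠ 0 := by
          rw [Ne, Ideal.absNorm_eq_zero_iff]
          exact (D.P w).ne_bot
        have h10 := Nat.le_of_dvd (Nat.pos_of_ne_zero h9) h6.2
        omega
      filter_upwards [hco, hM0, hgcd, hMge] with t h1 h0 h3 h4
      refine le_trans ?_ (sum_log_int _ h1)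
      have hMpos : (0 : ℝ) < M t := by exact_mod_cast Nat.pos_of_ne_zero h0
      have h5 := Real.log_le_log (Real.rpow_pos_of_pos hMpos ε) h3
      rw [Real.log_rpow hMpos] at h5
      nlinarith)
  refine dvd_of_TI (K := K) (D := D) z M hM0 hM ?_
  have h1 : TI D 𝒰 (fun t => (κ * c0⁻¹) * T j0 t ^ d) :=
    (TI.const (κ * c0⁻¹)).mul ((hT j0).pow hN d).ti
  refine (key.mul h1).congr ?_
  filter_upwards [hMx, hM0] with t ht h0
  have hT0 : T j0 t ^ d ≠ 0 := pow_ne_zero _ ((hT j0).ne t)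
  have h3 : T j0 t ^ (2 * d) - b = κ * ((M t : ℕ) : K) * c0⁻¹ * T j0 t ^ d := by
    rw [ht]
    field_simp
  have hM0' : ((M t : ℕ) : K) ≠ 0 := by exact_mod_cast h0
  rw [hR, h3]
  field_simp

end Pool.Agent.H95.FB
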