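import Mathlib
import Pool.Agent.H95.FB.Core

/-!
# Galois conjugation of integral quotients
-/

set_option autoImplicit false

open Finset Filter Topology

namespace Pool.Agent.H95.FB

open NumberField IsDedekindDomain
open Pool.Agent.TH286.GT.GrowD (sg sg_coe sg_inj)
open Pool.Agent.Y742.SF Pool.Agent.Y742.DI Pool.Agent.Y742.AR

variable {K : Type} [Field K] [NumberField K] [IsGalois ℚ K] {𝒰 : Ultrafilter ℕ}
  {N : ℕ → ℝ} {D : PD K}

/-- integrality outside the primes of `D` is stable under the Galois group -/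
theorem TInt_sigma (σ : K ≃ₐ[ℚ] K) (x : K) (hx : D.TInt x) : D.TInt (σ x) := by
  classical
  rcases eq_or_ne x 0 with rfl | hx0
  · rw [map_zero]
    exact D.TInt_zero
  obtain ⟨E, y, -, hy⟩ := D.clear1 x hx (∑ v, |Real.log (fv (D.P v) x)|) (fun v => by
    rw [← Real.log_le_iff_le_exp (fv_pos _ _ hx0)]
    refine (le_abs_self _).trans ?_
    exact Finset.single_le_sum (f := fun v => |Real.log (fv (D.P v) x)|)
      (fun _ _ => abs_nonneg _) (Finset.mem_univ v))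
  intro w hw
  have h1 : fv w (sg σ (∏ v, D.U v ^ E v) : 𝓞 K) = 1 := by
    have h2 : ((sg σ (∏ v, D.U v ^ E v) : 𝓞 K) : K) = ∏ v, ((sg σ (D.U v) : 𝓞 K) : K) ^ E v := by
      rw [sg_coe, D.coe_U, map_prod]
      refine Finset.prod_congr rfl fun v _ => ?_
      rw [map_pow, sg_coe]
    rw [h2, fv_prod]
    refine Finset.prod_eq_one fun v _ => ?_
    have h3 : Ideal.span {sg σ (D.U v)} = (D.P (D.π σ v)).asIdeal ^ D.h := by
      rw [D.U_pi, D.hU]
    rw [fv_pow, fv_gen_ne (D.P (D.π σ v)) D.h D.hh _ h3 w (hw _), one_pow]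
  have h2 : ((sg σ y : 𝓞 K) : K) = ((sg σ (∏ v, D.U v ^ E v) : 𝓞 K) : K) * σ x := by
    rw [sg_coe, sg_coe, hy, map_mul]
  have h3 := fv_int w (sg σ y)
  rw [h2, fv_mul, h1, one_mul] at h3
  exact h3

theorem TI_sigma (σ : K ≃ₐ[ℚ] K) {f : ℕ → K} (hf : TI D 𝒰 f) : TI D 𝒰 (fun t => σ (f t)) := by
  obtain ⟨c, hc, h⟩ := hf
  refine ⟨sg σ c, ?_, ?_⟩
  · intro h0
    have h1 := sg_coe σ c
    rw [h0] at h1
    have h2 : σ (c : K) = 0 := by rw [← h1]; simp
    rw [map_eq_zero] at h2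
    exact hc (RingOfIntegers.coe_eq_zero_iff.1 h2)
  · filter_upwards [h] with t ht
    rw [sg_coe, ← map_mul]
    exact TInt_sigma σ _ ht

/-- conjugate factors, first kind -/
theorem step1 (σ : K ≃ₐ[ℚ] K) (ω ω' : K) {T z : ℕ → K} (hT : SU D 𝒰 N T)
    (h : ∀ᶠ t in (𝒰 : Filter ℕ), σ (ω / T t) = ω' / T t)
    (hz : ∀ᶠ t in (𝒰 : Filter ℕ), σ (z t) = z t)
    (hTI : TI D 𝒰 (fun t => z t / (T t - ω))) : TI D 𝒰 (fun t => z t / (T t - ω')) := by
  have h1 := ((TI_sigma σ hTI).mul (TI_sigma σ hT.ti)).mul hT.ti'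
  refine h1.congr ?_
  filter_upwards [h, hz] with t h2 h3
  have hT0 := hT.ne t
  have hs0 : σ (T t) ≠ 0 := (map_ne_zero σ).2 hT0
  have h4 : σ ω = σ (T t) * (ω' / T t) := by
    rw [← h2, map_div₀]
    field_simp
  rw [map_div₀, map_sub, h3, h4]
  have h5 : σ (T t) - σ (T t) * (ω' / T t) = σ (T t) * (T t - ω') / T t := by
    field_simp
  rw [h5]
  rcases eq_or_ne (T t - ω') 0 with h6 | h6
  · rw [h6]
    simp
  · field_simp

/-- conjugate factors, second kind -/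
theorem step2 (σ : K ≃ₐ[ℚ] K) (ω ω' : K) (hω' : ω' ≠ 0) {T z : ℕ → K} (hT : SU D 𝒰 N T)
    (h : ∀ᶠ t in (𝒰 : Filter ℕ), σ (ω / T t) = T t / ω')
    (hz : ∀ᶠ t in (𝒰 : Filter ℕ), σ (z t) = z t)
    (hTI : TI D 𝒰 (fun t => z t / (T t - ω))) : TI D 𝒰 (fun t => z t / (T t - ω')) := by
  have h1 := ((TI_sigma σ hTI).mul (TI_sigma σ hT.ti)).mul (TI.const (-ω'⁻¹))
  refine h1.congr ?_
  filter_upwards [h, hz] with t h2 h3
  have hT0 := hT.ne t
  have hs0 : σ (T t) ≠ 0 := (map_ne_zero σ).2 hT0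
  have h4 : σ ω = σ (T t) * (T t / ω') := by
    rw [← h2, map_div₀]
    field_simp
  rw [map_div₀, map_sub, h3, h4]
  have h5 : σ (T t) - σ (T t) * (T t / ω') = - (σ (T t) * (T t - ω') / ω') := by
    field_simp
    ring
  rw [h5]
  rcases eq_or_ne (T t - ω') 0 with h6 | h6
  · rw [h6]
    simp
  · field_simp

end Pool.Agent.H95.FB
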