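import Mathlib

/-!
# Powers of the golden ratio are not proper powers in `ℚ(√5, i)`
-/

set_option autoImplicit false

open Real

namespace Pool.Agent.H95.FB

/-- conjugate real numbers of `ℚ(√5)` -/
def Cj (x y : ℝ) : Prop := ∃ a b : ℚ, x = a + b * √5 ∧ y = a - b * √5

theorem s5 : (√5 : ℝ) * √5 = 5 := Real.mul_self_sqrt (by norm_num)

theorem irr5 : Irrational √5 := by
  have h : Nat.Prime 5 := by norm_num
  simpa using h.irrational_sqrt

theorem Cj.mul {x y x' y' : ℝ} (h : Cj x y) (h' : Cj x' y') : Cj (x * x') (y * y') := by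
  obtain ⟨a, b, rfl, rfl⟩ := h
  obtain ⟨c, d, rfl, rfl⟩ := h'
  refine ⟨a * c + 5 * b * d, a * d + b * c, ?_, ?_⟩
  · push_cast
    linear_combination (b * d : ℝ) * s5
  · push_cast
    linear_combination (b * d : ℝ) * s5

theorem Cj.add {x y x' y' : ℝ} (h : Cj x y) (h' : Cj x' y') : Cj (x + x') (y + y') := by
  obtain ⟨a, b, rfl, rfl⟩ := h
  obtain ⟨c, d, rfl, rfl⟩ := h'
  refine ⟨a + c, b + d, ?_, ?_⟩ <;> push_cast <;> ring

theorem Cj.neg {x y : ℝ} (h : Cj x y) : Cj (-x) (-y) := by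
  obtain ⟨a, b, rfl, rfl⟩ := h
  refine ⟨-a, -b, ?_, ?_⟩ <;> push_cast <;> ring

theorem Cj.rat (q : ℚ) : Cj q q := ⟨q, 0, by simp, by simp⟩

theorem Cj.pow {x y : ℝ} (h : Cj x y) (k : ℕ) : Cj (x ^ k) (y ^ k) := by
  induction k with
  | zero => simpa using Cj.rat 1
  | succ k ih => rw [pow_succ, pow_succ]; exact ih.mul h

theorem Cj.uniq {a b c d : ℚ} (h : (a : ℝ) + b * √5 = c + d * √5) : a = c ∧ b = d := by
  by_cases hbd : b = d
  · subst hbd
    refine ⟨?_, rfl⟩
    have : (a : ℝ) = c := by linarith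
    exact_mod_cast this
  · exfalso
    have h1 : ((b : ℝ) - d) ≠ 0 := by
      intro h0
      apply hbd
      have : (b : ℝ) = d := by linarith
      exact_mod_cast this
    have h2 : √5 = (((c - a) / (b - d) : ℚ) : ℝ) := by
      push_cast
      rw [eq_div_iff h1]
      linarith
    exact irr5 ⟨_, h2.symm⟩

theorem Cj.eq {x y y' : ℝ} (h : Cj x y) (h' : Cj x y') : y = y' := by
  obtain ⟨a, b, hx, rfl⟩ := h
  obtain ⟨c, d, hx', rfl⟩ := h'
  obtain ⟨h1, h2⟩ := Cj.uniq (hx.symm.trans hx')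
  rw [h1, h2]

theorem Cj.ne_zero {x y : ℝ} (h : Cj x y) (hx : x ≠ 0) : y ≠ 0 := by
  rintro rfl
  obtain ⟨a, b, rfl, hy⟩ := h
  have h1 := Cj.uniq (a := a) (b := -b) (c := 0) (d := 0) (by push_cast; linarith)
  apply hx
  have h2 : b = 0 := by linarith [h1.2]
  rw [h1.1, h2]
  simp

theorem Cj.inv {x y : ℝ} (h : Cj x y) : Cj x⁻¹ y⁻¹ := by
  by_cases hx : x = 0
  · have h0 : Cj 0 0 := by simpa using Cj.rat 0
    have : y = 0 := Cj.eq (hx ▸ h) h0
    rw [hx, this, inv_zero]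
    exact h0
  · have hy := h.ne_zero hx
    obtain ⟨a, b, h1, h2⟩ := h
    have h3 : ((a ^ 2 - 5 * b ^ 2 : ℚ) : ℝ) = x * y := by
      rw [h1, h2]
      push_cast
      linear_combination (b : ℝ) ^ 2 * s5
    have h4 : ((a ^ 2 - 5 * b ^ 2 : ℚ) : ℝ) ≠ 0 := by rw [h3]; exact mul_ne_zero hx hy
    refine ⟨a / (a ^ 2 - 5 * b ^ 2), -b / (a ^ 2 - 5 * b ^ 2), ?_, ?_⟩
    · rw [Rat.cast_div, Rat.cast_div, h3]
      field_simp
      push_cast
      linarith
    · rw [Rat.cast_div, Rat.cast_div, h3]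
      field_simp
      push_cast
      linarith

theorem Cj.zpow {x y : ℝ} (h : Cj x y) (k : ℤ) : Cj (x ^ k) (y ^ k) := by
  cases k with
  | ofNat k => simpa using h.pow k
  | negSucc k => rw [zpow_negSucc, zpow_negSucc]; exact (h.pow _).inv

theorem Cj.phi : Cj goldenRatio goldenConj := by
  refine ⟨1 / 2, 1 / 2, ?_, ?_⟩
  · unfold goldenRatio
    push_cast
    ring
  · unfold goldenConj
    push_cast
    ring

theorem int_phi : IsIntegral ℤ goldenRatio := by
  refine ⟨Polynomial.X ^ 2 - Polynomial.X - 1, ?_, ?_⟩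
  · monicity!
  · simp

theorem int_phi_inv : IsIntegral ℤ (goldenRatio⁻¹) := by
  rw [inv_goldenRatio]
  have h : -goldenConj = goldenRatio - 1 := by
    have := goldenRatio_add_goldenConj
    linarith
  rw [h]
  exact int_phi.sub isIntegral_one

theorem int_phi_zpow (k : ℤ) : IsIntegral ℤ (goldenRatio ^ k) := by
  cases k with
  | ofNat k => simpa using int_phi.pow k
  | negSucc k =>
    rw [zpow_negSucc, ← inv_pow]
    exact int_phi_inv.pow _

theorem nopow_real {p : ℕ} (hp : Odd p) (hp1 : 0 < p) {w w' : ℝ} (h : Cj w w') (hw : 0 < w) (m : ℤ)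
    (hwm : w ^ p = goldenRatio ^ (2 * m)) : (p : ℤ) ∣ m := by
  have hφ : (0 : ℝ) < goldenRatio := goldenRatio_pos
  have hφ1 : (1 : ℝ) < goldenRatio := one_lt_goldenRatio
  have hy : (1 : ℝ) < goldenRatio ^ 2 := by nlinarith
  obtain ⟨j, hj1, hj2⟩ := exists_mem_Ico_zpow hw hy
  -- the conjugate
  have h1 : w' ^ p = goldenConj ^ (2 * m) := Cj.eq (h.pow p) (hwm ▸ Cj.phi.zpow (2 * m))
  have h2 : (w * w') ^ p = 1 := by
    rw [mul_pow, hwm, h1, ← mul_zpow, goldenRatio_mul_goldenConj, zpow_mul]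
    norm_num
  have h3 : w * w' = 1 := by
    have h4 := hp.strictMono_pow.injective (a₁ := w * w') (a₂ := 1) (by simpa using h2)
    exact h4
  -- reduction to a small unit
  obtain ⟨v, hv⟩ : ∃ v : ℝ, v = w * goldenRatio ^ (-(2 * j)) := ⟨_, rfl⟩
  obtain ⟨v', hv'⟩ : ∃ v' : ℝ, v' = w' * goldenConj ^ (-(2 * j)) := ⟨_, rfl⟩
  have hcj : Cj v v' := by
    rw [hv, hv']
    exact h.mul (Cj.phi.zpow _)
  have hvv : v * v' = 1 := by
    rw [hv, hv']
    have : w * goldenRatio ^ (-(2 * j)) * (w' * goldenConj ^ (-(2 * j))) =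
        (w * w') * (goldenRatio * goldenConj) ^ (-(2 * j)) := by
      rw [mul_zpow]
      ring
    rw [this, h3, goldenRatio_mul_goldenConj, one_mul, zpow_neg, zpow_mul]
    norm_num
  have hvp : v ^ p = goldenRatio ^ (2 * (m - p * j)) := by
    rw [hv, mul_pow, hwm, ← zpow_natCast, ← zpow_mul, ← zpow_add₀ hφ.ne']
    congr 1
    ring
  have hpow2 : ∀ i : ℤ, (goldenRatio ^ 2) ^ i = goldenRatio ^ (2 * i) := by
    intro i
    rw [← zpow_natCast, ← zpow_mul]
    norm_num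
  have hv1 : 1 ≤ v := by
    rw [hv, zpow_neg, ← hpow2, ← div_eq_mul_inv, le_div_iff₀ (by positivity), one_mul]
    exact hj1
  have hv2 : v < goldenRatio ^ 2 := by
    rw [hv, zpow_neg, ← hpow2, ← div_eq_mul_inv, div_lt_iff₀ (by positivity)]
    rw [zpow_add₀ (by positivity), zpow_one] at hj2
    linarith
  have hv0 : 0 < v := by linarith
  -- the trace is an integer
  have hint : IsIntegral ℤ v := by
    refine IsIntegral.of_pow hp1 ?_
    rw [hvp]
    exact int_phi_zpow _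
  have hv'eq : v' = v⁻¹ := eq_inv_of_mul_eq_one_right hvv
  have hint' : IsIntegral ℤ v' := by
    refine IsIntegral.of_pow hp1 ?_
    rw [hv'eq, inv_pow, hvp, ← zpow_neg]
    exact int_phi_zpow _
  obtain ⟨a, b, hva, hvb⟩ := hcj
  have htr : IsIntegral ℤ (((2 * a : ℚ)) : ℝ) := by
    have : (((2 * a : ℚ)) : ℝ) = v + v' := by
      rw [hva, hvb]
      push_cast
      ring
    rw [this]
    exact hint.add hint'
  have htr' : IsIntegral ℤ (2 * a : ℚ) := by
    have h5 : (((2 * a : ℚ)) : ℝ) = algebraMap ℚ ℝ (2 * a) := rfl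
    rw [h5] at htr
    exact (isIntegral_algebraMap_iff (algebraMap ℚ ℝ).injective).1 htr
  obtain ⟨s, hs⟩ := IsIntegrallyClosed.isIntegral_iff.1 htr'
  have hs' : (s : ℝ) = v + v⁻¹ := by
    rw [← hv'eq, hva, hvb]
    have h6 : (s : ℚ) = 2 * a := by simpa using hs
    have h7 : (s : ℝ) = ((2 * a : ℚ) : ℝ) := by rw [← h6]; simp
    rw [h7]
    push_cast
    ring
  rcases hv1.eq_or_lt with h8 | h8
  · rw [← h8, one_pow] at hvp
    have h9 : (2 : ℤ) * (m - p * j) = 0 := by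
      by_contra hne
      rcases lt_or_gt_of_ne hne with h10 | h10
      · have := zpow_lt_one_of_neg₀ hφ1 h10
        linarith
      · have := one_lt_zpow₀ hφ1 h10
        linarith
    exact ⟨j, by linarith⟩
  · exfalso
    have h9 : (2 : ℝ) < s := by
      rw [hs']
      have h10 : 0 < (v - 1) ^ 2 := by
        have : v - 1 ≠ 0 := by linarith
        positivity
      have h11 : v + v⁻¹ - 2 = (v - 1) ^ 2 / v := by
        field_simp
        ring
      have h12 : 0 < (v - 1) ^ 2 / v := by positivity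
      linarith
    have h10 : (s : ℝ) < 3 := by
      rw [hs']
      have hsq : goldenRatio ^ 2 = goldenRatio + 1 := goldenRatio_sq
      have hlt2 : goldenRatio < 2 := goldenRatio_lt_two
      -- `v + 1 / v < 3` as `v² - 3 v + 1 < 0` between `1` and `φ²`
      have h11 : v ^ 2 - 3 * v + 1 < 0 := by
        have h12 : v ^ 2 - 3 * v + 1 = (v - goldenRatio ^ 2) * (v - (2 - goldenRatio)) := by
          rw [hsq]
          linear_combination hsq
        rw [h12]
        exact mul_neg_of_neg_of_pos (by linarith) (by linarith)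
      have h13 : v + v⁻¹ - 3 = (v ^ 2 - 3 * v + 1) / v := by
        field_simp
        ring
      have h14 : (v ^ 2 - 3 * v + 1) / v < 0 := div_neg_of_neg_of_pos h11 hv0
      linarith
    have h11 : (2 : ℤ) < s := by exact_mod_cast h9
    have h12 : s < (3 : ℤ) := by exact_mod_cast h10
    omega

/-- complex numbers of `ℚ(√5, i)` -/
def Q5i (z : ℂ) : Prop := (∃ x', Cj z.re x') ∧ ∃ y', Cj z.im y'

theorem Q5i.mul {z w : ℂ} (h : Q5i z) (h' : Q5i w) : Q5i (z * w) := by
  obtain ⟨⟨a, ha⟩, ⟨b, hb⟩⟩ := h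
  obtain ⟨⟨c, hc⟩, ⟨d, hd⟩⟩ := h'
  refine ⟨⟨a * c + -(b * d), ?_⟩, ⟨a * d + b * c, ?_⟩⟩
  · rw [Complex.mul_re, sub_eq_add_neg]
    exact (ha.mul hc).add (hb.mul hd).neg
  · rw [Complex.mul_im]
    exact (ha.mul hd).add (hb.mul hc)

theorem Q5i.add {z w : ℂ} (h : Q5i z) (h' : Q5i w) : Q5i (z + w) := by
  obtain ⟨⟨a, ha⟩, ⟨b, hb⟩⟩ := h
  obtain ⟨⟨c, hc⟩, ⟨d, hd⟩⟩ := h'
  exact ⟨⟨_, by rw [Complex.add_re]; exact ha.add hc⟩, ⟨_, by rw [Complex.add_im]; exact hb.add hd⟩⟩

theorem Q5i.inv {z : ℂ} (h : Q5i z) : Q5i z⁻¹ := by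
  obtain ⟨⟨a, ha⟩, ⟨b, hb⟩⟩ := h
  have h1 : Cj (Complex.normSq z) (a * a + b * b) := by
    rw [Complex.normSq_apply]
    exact (ha.mul ha).add (hb.mul hb)
  exact ⟨⟨a * (a * a + b * b)⁻¹, by rw [Complex.inv_re, div_eq_mul_inv]; exact ha.mul h1.inv⟩,
    ⟨-b * (a * a + b * b)⁻¹, by rw [Complex.inv_im, div_eq_mul_inv]; exact hb.neg.mul h1.inv⟩⟩

theorem Q5i.real {x x' : ℝ} (h : Cj x x') : Q5i (x : ℂ) :=
  ⟨⟨x', by simpa using h⟩, ⟨0, by simpa using Cj.rat 0⟩⟩

theorem Q5i.I : Q5i Complex.I :=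
  ⟨⟨0, by simpa using Cj.rat 0⟩, ⟨1, by simpa using Cj.rat 1⟩⟩

/-- a positive element of `ℚ(√5)` with negative conjugate is not a square there -/
theorem nosq {x x' : ℝ} (hx : Cj x x') (hx' : x' < 0) {u u' : ℝ} (hu : Cj u u') : u ^ 2 ≠ x := by
  intro h
  have h1 : u' ^ 2 = x' := Cj.eq (h ▸ hu.pow 2) hx
  nlinarith [sq_nonneg u']

theorem half_not_sq {u u' : ℝ} (hu : Cj u u') : u ^ 2 ≠ 1 / 2 := by
  intro h
  obtain ⟨a, b, ha, -⟩ := hu
  have h1 : ((a ^ 2 + 5 * b ^ 2 : ℚ) : ℝ) + ((2 * a * b : ℚ) : ℝ) * √5 =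
      ((1 / 2 : ℚ) : ℝ) + ((0 : ℚ) : ℝ) * √5 := by
    rw [ha] at h
    push_cast
    linear_combination h - (b : ℝ) ^ 2 * s5
  obtain ⟨h2, h3⟩ := Cj.uniq h1
  rcases mul_eq_zero.1 h3 with h4 | h4
  · have h5 : a = 0 := by
      rcases mul_eq_zero.1 h4 with h5 | h5
      · norm_num at h5
      · exact h5
    rw [h5] at h2
    have h6 : ((10 * b : ℚ)) ^ 2 = 10 := by linear_combination 20 * h2
    have h7 : Irrational √(10 : ℝ) := by
      have : ¬ IsSquare (10 : ℕ) := by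
        rintro ⟨r, hr⟩
        have : r ≤ 3 := by nlinarith
        interval_cases r <;> omega
      have h8 := irrational_sqrt_natCast_iff.2 this
      simpa using h8
    have h8 : √(10 : ℝ) = |((10 * b : ℚ) : ℝ)| := by
      rw [← Real.sqrt_sq_eq_abs]
      congr 1
      have : (((10 * b : ℚ) ^ 2 : ℚ) : ℝ) = ((10 : ℚ) : ℝ) := by rw [h6]
      push_cast at this ⊢
      linarith
    apply h7
    exact ⟨|10 * b|, by rw [h8]; push_cast; rfl⟩
  · rw [h4] at h2
    have h6 : ((2 * a : ℚ)) ^ 2 = 2 := by linear_combination 4 * h2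
    have h8 : √(2 : ℝ) = |((2 * a : ℚ) : ℝ)| := by
      rw [← Real.sqrt_sq_eq_abs]
      congr 1
      have : (((2 * a : ℚ) ^ 2 : ℚ) : ℝ) = ((2 : ℚ) : ℝ) := by rw [h6]
      push_cast at this ⊢
      linarith
    apply irrational_sqrt_two
    exact ⟨|2 * a|, by rw [h8]; push_cast; rfl⟩

/-- **`ε φ^(-n)` is not a `p`-th power in `ℚ(√5, i)`.** -/
theorem nopow {y : ℂ} (hy : Q5i y) {p : ℕ} (hp : p.Prime) {n : ℕ} (hpn : p ≠ 2 → ¬ p ∣ n)
    (ε : ℂ) (hε : (Odd n ∧ (ε = 1 ∨ ε = -1)) ∨ (ε = Complex.I ∨ ε = -Complex.I)) :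
    y ^ p ≠ ε * ((goldenRatio : ℝ) : ℂ) ^ (-(n : ℤ)) := by
  intro h
  have hφ : (0 : ℝ) < goldenRatio := goldenRatio_pos
  obtain ⟨x, hx⟩ : ∃ x : ℝ, x = goldenRatio ^ (-(n : ℤ)) := ⟨_, rfl⟩
  have hx0 : 0 < x := by rw [hx]; positivity
  have hxC : ((goldenRatio : ℝ) : ℂ) ^ (-(n : ℤ)) = (x : ℂ) := by rw [hx]; push_cast; rfl
  have hcj : Cj x (goldenConj ^ (-(n : ℤ))) := by rw [hx]; exact Cj.phi.zpow _
  rw [hxC] at h
  have hεn : Complex.normSq ε = 1 := by
    rcases hε with ⟨-, h1 | h1⟩ | h1 | h1 <;> rw [h1] <;> simp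
  rcases hp.eq_two_or_odd' with h2 | hodd
  · -- squares
    rw [h2] at h
    obtain ⟨⟨a, ha⟩, ⟨b, hb⟩⟩ := hy
    have hyy : ε * (x : ℂ) = y * y := by rw [← h]; ring
    have hre : y.re ^ 2 - y.im ^ 2 = (ε * (x : ℂ)).re := by
      rw [hyy, Complex.mul_re]
      ring
    have him : 2 * y.re * y.im = (ε * (x : ℂ)).im := by
      rw [hyy, Complex.mul_im]
      ring
    have hconjneg : Odd n → goldenConj ^ (-(n : ℤ)) < 0 := by
      intro hn
      rw [zpow_neg, zpow_natCast, inv_lt_zero]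
      exact hn.pow_neg goldenConj_neg
    rcases hε with ⟨hn, h1⟩ | h1
    · have him' : y.re * y.im = 0 := by
        rcases h1 with rfl | rfl <;> simp at him <;> rcases him with h3 | h3 <;> simp [h3]
      rcases mul_eq_zero.1 him' with h3 | h3
      · have h4 : y.im ^ 2 = x := by
          rcases h1 with rfl | rfl
          · simp [h3] at hre
            nlinarith [sq_nonneg y.im]
          · simp [h3] at hre
            linarith
        exact nosq hcj (hconjneg hn) hb h4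
      · have h4 : y.re ^ 2 = x := by
          rcases h1 with rfl | rfl
          · simp [h3] at hre
            linarith
          · simp [h3] at hre
            nlinarith [sq_nonneg y.re]
        exact nosq hcj (hconjneg hn) ha h4
    · have hre' : y.re ^ 2 = y.im ^ 2 := by
        rcases h1 with rfl | rfl <;> simp at hre <;> linarith
      have him' : (2 * y.re * y.im) ^ 2 = x ^ 2 := by
        rcases h1 with rfl | rfl <;> simp at him <;> rw [him] <;> ring
      have h3 : 2 * y.re ^ 2 = x := by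
        have h4 : (2 * y.re ^ 2) ^ 2 = x ^ 2 := by
          rw [← him']
          linear_combination 4 * y.re ^ 2 * hre'
        have h5 : 0 ≤ 2 * y.re ^ 2 := by positivity
        exact (pow_left_inj₀ h5 hx0.le two_ne_zero).1 h4
      rcases Nat.even_or_odd n with hn | hn
      · obtain ⟨k, hk⟩ := hn
        apply half_not_sq (ha.mul (Cj.phi.zpow k))
        rw [mul_pow]
        have h4 : (goldenRatio ^ (k : ℤ)) ^ 2 = x⁻¹ := by
          rw [hx, ← zpow_neg, neg_neg, zpow_natCast, zpow_natCast, ← pow_mul, hk]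
          congr 1
          ring
        rw [h4]
        have h5 : y.re ^ 2 = x / 2 := by linarith
        rw [h5]
        field_simp
      · have h4 : Cj (x * 2⁻¹) (goldenConj ^ (-(n : ℤ)) * 2⁻¹) := by
          refine hcj.mul ?_
          have := Cj.rat (1 / 2)
          push_cast at this
          simpa using this
        have h5 := hconjneg hn
        refine nosq h4 (by linarith) ha ?_
        linarith
  · -- odd primes
    have hp2 : p ≠ 2 := by
      rintro rfl
      exact absurd hodd (by decide)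
    obtain ⟨⟨a, ha⟩, ⟨b, hb⟩⟩ := hy
    have h1 : Cj (Complex.normSq y) (a * a + b * b) := by
      rw [Complex.normSq_apply]
      exact (ha.mul ha).add (hb.mul hb)
    have h3 : Complex.normSq y ^ p = goldenRatio ^ (2 * (-(n : ℤ))) := by
      rw [← map_pow, h, map_mul, hεn, one_mul, Complex.normSq_ofReal, hx, ← zpow_add₀ hφ.ne']
      congr 1
      ring
    have h4 : 0 < Complex.normSq y := by
      rw [Complex.normSq_pos]
      rintro rfl
      rw [map_zero, zero_pow hp.ne_zero] at h3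
      have : 0 < goldenRatio ^ (2 * (-(n : ℤ))) := by positivity
      linarith
    have h5 := nopow_real hodd hp.pos h1 h4 _ h3
    apply hpn hp2
    rw [Int.dvd_neg] at h5
    exact_mod_cast h5

end Pool.Agent.H95.FB
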