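import Mathlib
import Pool.Agent.H95.EB.Par

/-!
# Multiplicatively independent parameters for finitely many sequences of complex numbers
-/

set_option autoImplicit false

open Filter Topology

namespace Pool.Agent.H95.FB

/-- a sequence with values in a finite set is constant along an ultrafilter -/
theorem const_of_fin {β : Type} {𝒰 : Ultrafilter ℕ} (f : ℕ → β) {s : Set β} (hs : s.Finite)
    (h : ∀ᶠ t in (𝒰 : Filter ℕ), f t ∈ s) : ∃ c ∈ s, ∀ᶠ t in (𝒰 : Filter ℕ), f t = c := by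
  have h1 : ∀ᶠ t in (𝒰 : Filter ℕ), ∃ c ∈ s, f t = c := by
    filter_upwards [h] with t ht
    exact ⟨_, ht, rfl⟩
  exact (Ultrafilter.eventually_exists_mem_iff hs).1 h1

variable {k : ℕ}

/-- monomials in sequences -/
noncomputable def mo (u : Fin k → ℕ → ℂ) (z : Fin k → ℤ) (t : ℕ) : ℂ := ∏ i, u i t ^ z i

variable (u : Fin k → ℕ → ℂ) (hu : ∀ i t, u i t ≠ 0)

theorem mo_ne (hu : ∀ i t, u i t ≠ 0) (z : Fin k → ℤ) (t : ℕ) : mo u z t ≠ 0 :=
  Finset.prod_ne_zero_iff.2 fun i _ => zpow_ne_zero _ (hu i t)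

theorem mo_add (hu : ∀ i t, u i t ≠ 0) (z z' : Fin k → ℤ) (t : ℕ) :
    mo u (z + z') t = mo u z t * mo u z' t := by
  unfold mo
  rw [← Finset.prod_mul_distrib]
  exact Finset.prod_congr rfl fun i _ => zpow_add₀ (hu i t) _ _

theorem mo_smul (n : ℤ) (z : Fin k → ℤ) (t : ℕ) : mo u (n • z) t = mo u z t ^ n := by
  unfold mo
  rw [← Finset.prod_zpow]
  refine Finset.prod_congr rfl fun i _ => ?_
  rw [Pi.smul_apply, smul_eq_mul, mul_comm, zpow_mul]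

theorem mo_zero (t : ℕ) : mo u 0 t = 1 := by simp [mo]

theorem mo_sum (hu : ∀ i t, u i t ≠ 0) {m : ℕ} (w : Fin m → ℤ) (z : Fin m → Fin k → ℤ) (t : ℕ) :
    mo u (∑ j, w j • z j) t = ∏ j, mo u (z j) t ^ w j := by
  classical
  have h : ∀ S : Finset (Fin m), mo u (∑ j ∈ S, w j • z j) t = ∏ j ∈ S, mo u (z j) t ^ w j := by
    intro S
    induction S using Finset.induction_on with
    | empty => simp [mo_zero]
    | insert j S hj ih =>
      rw [Finset.sum_insert hj, Finset.prod_insert hj, mo_add u hu, mo_smul, ih]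
  exact h _

theorem mo_single (i : Fin k) (t : ℕ) : mo u (fun i' => if i' = i then 1 else 0) t = u i t := by
  classical
  unfold mo
  rw [Finset.prod_eq_single i]
  · simp
  · intro j _ hj
    simp [hj]
  · intro h
    exact absurd (Finset.mem_univ _) h

/-- the relations -/
noncomputable def Rel (𝒰 : Ultrafilter ℕ) (hu : ∀ i t, u i t ≠ 0) : Submodule ℤ (Fin k → ℤ) where
  carrier := {z | ∃ c : ℂ, ∀ᶠ t in (𝒰 : Filter ℕ), mo u z t = c}
  zero_mem' := ⟨1, Eventually.of_forall fun t => mo_zero u t⟩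
  add_mem' := by
    rintro z z' ⟨c, hc⟩ ⟨c', hc'⟩
    refine ⟨c * c', ?_⟩
    filter_upwards [hc, hc'] with t h h'
    rw [mo_add u hu, h, h']
  smul_mem' := by
    rintro n z ⟨c, hc⟩
    refine ⟨c ^ n, ?_⟩
    filter_upwards [hc] with t h
    rw [mo_smul, h]

theorem finite_roots (n : ℕ) (hn : n ≠ 0) (c : ℂ) : {y : ℂ | y ^ n = c}.Finite := by
  have h3 : (Polynomial.X ^ n - Polynomial.C c : Polynomial ℂ) ≠ 0 :=
    Polynomial.X_pow_sub_C_ne_zero (Nat.pos_of_ne_zero hn) c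
  refine (Polynomial.finite_setOfPred_isRoot h3).subset ?_
  intro y hy
  have hy' : y ^ n = c := hy
  show Polynomial.IsRoot _ y
  rw [Polynomial.IsRoot, Polynomial.eval_sub, Polynomial.eval_pow, Polynomial.eval_X,
    Polynomial.eval_C, hy', sub_self]

theorem Rel_tf (𝒰 : Ultrafilter ℕ) (hu : ∀ i t, u i t ≠ 0) :
    Module.IsTorsionFree ℤ ((Fin k → ℤ) ⧸ Rel u 𝒰 hu) := by
  refine Module.IsTorsionFree.of_smul_eq_zero fun n m hkm => ?_
  by_cases hn : n = 0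
  · exact Or.inl hn
  right
  obtain ⟨z, rfl⟩ := Submodule.mkQ_surjective _ m
  rw [← map_smul, Submodule.mkQ_apply, Submodule.Quotient.mk_eq_zero] at hkm
  rw [Submodule.mkQ_apply, Submodule.Quotient.mk_eq_zero]
  obtain ⟨c, hc⟩ := hkm
  have h1 : ∃ c' : ℂ, ∀ᶠ t in (𝒰 : Filter ℕ), mo u z t ^ n.natAbs = c' := by
    rcases Int.natAbs_eq n with h2 | h2
    · refine ⟨c, ?_⟩
      filter_upwards [hc] with t ht
      rw [mo_smul, h2, zpow_natCast] at ht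
      exact ht
    · refine ⟨c⁻¹, ?_⟩
      filter_upwards [hc] with t ht
      rw [mo_smul, h2, zpow_neg, zpow_natCast] at ht
      rw [← ht, inv_inv]
  obtain ⟨c', hc'⟩ := h1
  obtain ⟨c'', -, h2⟩ := const_of_fin (𝒰 := 𝒰) (mo u z)
    (finite_roots _ (Int.natAbs_ne_zero.2 hn) c') hc'
  exact ⟨c'', h2⟩

/-- **Parameters.** -/
theorem exists_param (𝒰 : Ultrafilter ℕ) {k : ℕ} (u : Fin (k + 1) → ℕ → ℂ)
    (hu : ∀ i t, u i t ≠ 0) (h0 : ∀ c : ℂ, ¬ ∀ᶠ t in (𝒰 : Filter ℕ), u 0 t = c) :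
    ∃ (m : ℕ) (z : Fin m → Fin (k + 1) → ℤ) (j0 : Fin m) (a : ℕ) (A : Fin (k + 1) → Fin m → ℤ)
      (c0 : ℂ) (c : Fin (k + 1) → ℂ), 0 < a ∧
      (∀ᶠ t in (𝒰 : Filter ℕ), u 0 t = c0 * mo u (z j0) t ^ a) ∧
      (∀ i, ∀ᶠ t in (𝒰 : Filter ℕ), u i t = c i * ∏ j, mo u (z j) t ^ A i j) ∧
      (∀ (w : Fin m → ℤ) (c : ℂ), (∀ᶠ t in (𝒰 : Filter ℕ), ∏ j, mo u (z j) t ^ w j = c) →
        w = 0) := by
  classical
  have htf := Rel_tf u 𝒰 hu
  obtain ⟨q, hq⟩ : ∃ q : (Fin (k + 1) → ℤ) ⧸ Rel u 𝒰 hu,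
    q = (Rel u 𝒰 hu).mkQ (fun i => if i = 0 then 1 else 0) := ⟨_, rfl⟩
  have hq0 : q ≠ 0 := by
    rw [hq, Submodule.mkQ_apply, Ne, Submodule.Quotient.mk_eq_zero]
    rintro ⟨c, hc⟩
    apply h0 c
    filter_upwards [hc] with t ht
    rwa [mo_single] at ht
  obtain ⟨m, B, j0, a, ha, hqa⟩ := Pool.Agent.H95.EB.exists_basis q hq0
  choose z hz using fun j => Submodule.mkQ_surjective (Rel u 𝒰 hu) (B j)
  obtain ⟨A, hA⟩ : ∃ A : Fin (k + 1) → Fin m → ℤ, A = fun i j =>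
    B.repr ((Rel u 𝒰 hu).mkQ (fun i' => if i' = i then 1 else 0)) j := ⟨_, rfl⟩
  have hquot : ∀ x y : Fin (k + 1) → ℤ, (Rel u 𝒰 hu).mkQ x = (Rel u 𝒰 hu).mkQ y →
      ∃ c : ℂ, ∀ᶠ t in (𝒰 : Filter ℕ), mo u x t = c * mo u y t := by
    intro x y hxy
    rw [Submodule.mkQ_apply, Submodule.mkQ_apply, Submodule.Quotient.eq] at hxy
    obtain ⟨c, hc⟩ := hxy
    refine ⟨c, ?_⟩
    filter_upwards [hc] with t ht
    rw [← ht, ← mo_add u hu, sub_add_cancel]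
  have hmk : ∀ w : Fin m → ℤ, (Rel u 𝒰 hu).mkQ (∑ j, w j • z j) = ∑ j, w j • B j := by
    intro w
    rw [map_sum]
    refine Finset.sum_congr rfl fun j _ => ?_
    rw [map_smul, hz]
  have h1 : ∃ c0 : ℂ, ∀ᶠ t in (𝒰 : Filter ℕ), u 0 t = c0 * mo u (z j0) t ^ a := by
    obtain ⟨c, hc⟩ := hquot (fun i => if i = 0 then 1 else 0) ((a : ℤ) • z j0) (by
      rw [← hq, hqa, map_smul, hz])
    refine ⟨c, ?_⟩
    filter_upwards [hc] with t ht
    rwa [mo_single, mo_smul, zpow_natCast] at ht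
  have h2 : ∀ i, ∃ c : ℂ, ∀ᶠ t in (𝒰 : Filter ℕ), u i t = c * ∏ j, mo u (z j) t ^ A i j := by
    intro i
    obtain ⟨c, hc⟩ := hquot (fun i' => if i' = i then 1 else 0) (∑ j, A i j • z j) (by
      rw [hmk, hA]
      exact (B.sum_repr _).symm)
    refine ⟨c, ?_⟩
    filter_upwards [hc] with t ht
    rwa [mo_single, mo_sum u hu] at ht
  obtain ⟨c0, hc0⟩ := h1
  choose c hc using h2
  refine ⟨m, z, j0, a, A, c0, c, ha, hc0, hc, ?_⟩
  intro w c' hw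
  have h3 : (Rel u 𝒰 hu).mkQ (∑ j, w j • z j) = 0 := by
    rw [Submodule.mkQ_apply, Submodule.Quotient.mk_eq_zero]
    refine ⟨c', ?_⟩
    filter_upwards [hw] with t ht
    rwa [mo_sum u hu]
  rw [hmk] at h3
  funext j
  exact (Fintype.linearIndependent_iff.1 B.linearIndependent) w h3 j

end Pool.Agent.H95.FB
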