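import Mathlib
import Pool.Agent.H95.SP.IrrA
import Pool.Agent.H95.FB.Gal
import Pool.Agent.H95.FB.Par
import Pool.Agent.H95.FB.Nop

/-!
# The Galois group permutes the roots
-/

set_option autoImplicit false

open Finset Filter Topology Real

namespace Pool.Agent.H95.FB

open NumberField IsDedekindDomain
open Pool.Agent.Y742.SF Pool.Agent.Y742.DI Pool.Agent.Y742.AR

variable {L : IntermediateField ℚ ℂ}

/-- the field `ℚ(√5, i)` inside `L` -/
noncomputable def F1 {L : IntermediateField ℚ ℂ} (s5 iL : L) : IntermediateField ℚ L :=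
  IntermediateField.adjoin ℚ {s5, iL}

theorem mem_Q5i {s5 iL : L} (h5 : (s5 : ℂ) = ((√5 : ℝ) : ℂ)) (hI : (iL : ℂ) = Complex.I) (x : L)
    (hx : x ∈ F1 s5 iL) : Q5i (x : ℂ) := by
  unfold F1 at hx
  induction hx using IntermediateField.adjoin_induction with
  | mem y hy =>
    rcases hy with rfl | hy
    · rw [h5]
      exact Q5i.real (x' := -√5) ⟨0, 1, by simp, by simp⟩
    · rw [Set.mem_singleton_iff.1 hy, hI]
      exact Q5i.I
  | algebraMap q =>
    have h : ((algebraMap ℚ L q : L) : ℂ) = ((q : ℝ) : ℂ) := by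
      push_cast
      simp
    rw [h]
    exact Q5i.real (Cj.rat q)
  | add y z _ _ hy hz => exact hy.add hz
  | inv y _ hy =>
    push_cast
    exact hy.inv
  | mul y z _ _ hy hz => exact hy.mul hz

theorem phi_eq : ((goldenRatio : ℝ) : ℂ) = (1 + ((√5 : ℝ) : ℂ)) / 2 := by
  unfold goldenRatio
  push_cast
  rfl

/-- **Transitivity on the `d`-th roots of `ε φ ^ (-n)`.** -/
theorem trans_root [FiniteDimensional ℚ L] [IsGalois ℚ L] {s5 iL : L}
    (h5 : (s5 : ℂ) = ((√5 : ℝ) : ℂ)) (hI : (iL : ℂ) = Complex.I) {d : ℕ} (hd : d ≠ 0) {n : ℕ}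
    (hdn : ∀ p : ℕ, p.Prime → p ∣ d → p ≠ 2 → ¬ p ∣ n) (ε : L)
    (hε : (Odd n ∧ ((ε : ℂ) = 1 ∨ (ε : ℂ) = -1)) ∨ ((ε : ℂ) = Complex.I ∨ (ε : ℂ) = -Complex.I))
    (θ θ' : L) (h : (θ : ℂ) ^ d = (ε : ℂ) * ((goldenRatio : ℝ) : ℂ) ^ (-(n : ℤ)))
    (h' : (θ' : ℂ) ^ d = (ε : ℂ) * ((goldenRatio : ℝ) : ℂ) ^ (-(n : ℤ))) :
    ∃ σ : L ≃ₐ[ℚ] L, σ θ = θ' := by
  obtain ⟨a, ha⟩ : ∃ a : L, a = ε * ((1 + s5) / 2) ^ (-(n : ℤ)) := ⟨_, rfl⟩
  have haC : (a : ℂ) = (ε : ℂ) * ((goldenRatio : ℝ) : ℂ) ^ (-(n : ℤ)) := by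
    rw [ha, phi_eq, ← h5]
    push_cast
    rfl
  have h5m : s5 ∈ F1 s5 iL := IntermediateField.subset_adjoin _ _ (by simp)
  have hIm : iL ∈ F1 s5 iL := IntermediateField.subset_adjoin _ _ (by simp)
  have hεm : ε ∈ F1 s5 iL := by
    rcases hε with ⟨-, h1 | h1⟩ | h1 | h1
    · have : ε = 1 := Subtype.ext (by rw [h1]; rfl)
      rw [this]
      exact one_mem _
    · have : ε = -1 := Subtype.ext (by rw [h1]; simp)
      rw [this]
      exact neg_mem (one_mem _)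
    · have : ε = iL := Subtype.ext (by rw [h1, hI])
      rw [this]
      exact hIm
    · have : ε = -iL := Subtype.ext (by rw [h1]; push_cast; rw [hI])
      rw [this]
      exact neg_mem hIm
  have h2m : (2 : L) ∈ F1 s5 iL := by
    have := add_mem (one_mem (F1 s5 iL)) (one_mem (F1 s5 iL))
    rw [one_add_one_eq_two] at this
    exact this
  have ham : a ∈ F1 s5 iL := by
    rw [ha]
    exact mul_mem hεm (zpow_mem (div_mem (add_mem (one_mem _) h5m) h2m) _)
  have hirr : Irreducible (Polynomial.X ^ d - Polynomial.C (⟨a, ham⟩ : F1 s5 iL)) := by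
    refine Pool.Agent.H95.SP.irr_of_I hd (i := (⟨iL, hIm⟩ : F1 s5 iL)) ?_ ?_
    · apply Subtype.ext
      apply Subtype.ext
      push_cast
      rw [hI, Complex.I_sq]
    · intro p hp hpd b hb
      have h1 := congrArg (fun x : F1 s5 iL => ((x : L) : ℂ)) hb
      simp only at h1
      push_cast at h1
      rw [haC] at h1
      exact nopow (mem_Q5i h5 hI b.1 b.2) hp (hdn p hp hpd) (ε : ℂ) hε h1
  have hmin : ∀ θ : L, (θ : ℂ) ^ d = (ε : ℂ) * ((goldenRatio : ℝ) : ℂ) ^ (-(n : ℤ)) →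
      Polynomial.X ^ d - Polynomial.C (⟨a, ham⟩ : F1 s5 iL) = minpoly (F1 s5 iL) θ := by
    intro θ hθ
    refine minpoly.eq_of_irreducible_of_monic hirr ?_ (Polynomial.monic_X_pow_sub_C _ hd)
    rw [map_sub, map_pow, Polynomial.aeval_X, Polynomial.aeval_C]
    have h1 : θ ^ d = a := by
      apply Subtype.ext
      push_cast
      rw [hθ, haC]
    rw [h1]
    exact sub_self _
  have hg : IsGalois (F1 s5 iL) L := inferInstance
  have hnormal : Normal (F1 s5 iL) L := hg.to_normal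
  have h1 : minpoly (F1 s5 iL) θ' = minpoly (F1 s5 iL) θ := by
    rw [← hmin θ h, ← hmin θ' h']
  rw [Normal.minpoly_eq_iff_mem_orbit (F := F1 s5 iL) L] at h1
  obtain ⟨σ, hσ⟩ := h1
  refine ⟨σ.restrictScalars ℚ, ?_⟩
  exact hσ

/-- complex conjugation -/
theorem exists_conj [FiniteDimensional ℚ L] [IsGalois ℚ L] :
    ∃ τ : L ≃ₐ[ℚ] L, ∀ x : L, ((τ x : L) : ℂ) = (starRingEnd ℂ) (x : ℂ) := by
  have : NumberField L := ⟨⟩
  obtain ⟨σ, hσ⟩ := exists_embs (K := L) (algebraMap L ℂ) ((starRingEnd ℂ).comp (algebraMap L ℂ))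
  exact ⟨σ, fun x => (hσ x).symm⟩

theorem coe5 : ((5 : L) : ℂ) = 5 := map_ofNat (algebraMap L ℂ) 5

/-- the conjugation of `√5` -/
theorem exists_s5 [FiniteDimensional ℚ L] [IsGalois ℚ L] {s5 : L}
    (h5 : (s5 : ℂ) = ((√5 : ℝ) : ℂ)) : ∃ τ : L ≃ₐ[ℚ] L, τ s5 = -s5 := by
  by_contra hcon
  push Not at hcon
  have hsq : s5 ^ 2 = 5 := by
    apply Subtype.ext
    push_cast
    rw [h5, ← Complex.ofReal_pow, Real.sq_sqrt (by norm_num), coe5]
    norm_num
  have hfix : ∀ τ : L ≃ₐ[ℚ] L, τ s5 = s5 := by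
    intro τ
    have h1 : (τ s5) ^ 2 = s5 ^ 2 := by
      rw [← map_pow, hsq, map_ofNat]
    rcases sq_eq_sq_iff_eq_or_eq_neg.1 h1 with h2 | h2
    · exact h2
    · exact absurd h2 (hcon τ)
  have h1 := (IsGalois.mem_bot_iff_fixed (F := ℚ) s5).2 hfix
  rw [IntermediateField.mem_bot] at h1
  obtain ⟨q, hq⟩ := h1
  have h2 : ((q : ℝ) : ℂ) = ((√5 : ℝ) : ℂ) := by
    rw [← h5, ← hq]
    push_cast
    simp
  exact irr5 ⟨q, by exact_mod_cast h2⟩

theorem finite_roots' {K : Type} [Field K] (n : ℕ) (hn : n ≠ 0) (c : K) :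
    {y : K | y ^ n = c}.Finite := by
  have h3 : (Polynomial.X ^ n - Polynomial.C c : Polynomial K) ≠ 0 :=
    Polynomial.X_pow_sub_C_ne_zero (Nat.pos_of_ne_zero hn) c
  refine (Polynomial.finite_setOfPred_isRoot h3).subset ?_
  intro y hy
  have hy' : y ^ n = c := hy
  show Polynomial.IsRoot _ y
  rw [Polynomial.IsRoot, Polynomial.eval_sub, Polynomial.eval_pow, Polynomial.eval_X,
    Polynomial.eval_C, hy', sub_self]

/-- **All factors are conjugate.** -/
theorem orb [FiniteDimensional ℚ L] [IsGalois ℚ L] [NumberField L] {𝒰 : Ultrafilter ℕ}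
    {N : ℕ → ℝ} {D : PD L} {s5 iL : L}
    (h5 : (s5 : ℂ) = ((√5 : ℝ) : ℂ)) (hI : (iL : ℂ) = Complex.I) {d : ℕ} (hd : d ≠ 0)
    (n : ℕ → ℕ) (hdn : ∀ᶠ t in (𝒰 : Filter ℕ), ∀ p : ℕ, p.Prime → p ∣ d → p ≠ 2 → ¬ p ∣ n t)
    (T z : ℕ → L) (hT : SU D 𝒰 N T) (c0 : L)
    (hx : ∀ᶠ t in (𝒰 : Filter ℕ), (c0 : ℂ) * (T t : ℂ) ^ d = ((goldenRatio : ℝ) : ℂ) ^ n t)
    (hz : ∀ σ : L ≃ₐ[ℚ] L, ∀ᶠ t in (𝒰 : Filter ℕ), σ (z t) = z t)
    (η : L) (hη : ((∀ᶠ t in (𝒰 : Filter ℕ), Odd (n t)) ∧ (η : ℂ) = 1) ∨ (η : ℂ) = Complex.I)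
    (ω ω' : L) (hω : ω ^ (2 * d) = η ^ 2 / c0 ^ 2) (hω' : ω' ^ (2 * d) = η ^ 2 / c0 ^ 2)
    (hTI : TI D 𝒰 (fun t => z t / (T t - ω))) : TI D 𝒰 (fun t => z t / (T t - ω')) := by
  have hφ0 : ((goldenRatio : ℝ) : ℂ) ≠ 0 := by exact_mod_cast goldenRatio_pos.ne'
  have hc0 : c0 ≠ 0 := by
    rintro rfl
    obtain ⟨t, ht⟩ := hx.exists
    have : ((0 : L) : ℂ) = 0 := rfl
    rw [this, zero_mul] at ht
    exact (pow_ne_zero _ hφ0) ht.symm
  have hη0 : η ≠ 0 := by
    rintro rfl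
    have : ((0 : L) : ℂ) = 0 := rfl
    rw [this] at hη
    rcases hη with ⟨-, h⟩ | h
    · exact zero_ne_one h
    · exact Complex.I_ne_zero h.symm
  have hc0C : (c0 : ℂ) ≠ 0 := fun h => hc0 (Subtype.ext h)
  have hω0 : ∀ ω : L, ω ^ (2 * d) = η ^ 2 / c0 ^ 2 → ω ≠ 0 := by
    rintro ω h rfl
    rw [zero_pow (by omega)] at h
    have : η ^ 2 / c0 ^ 2 ≠ 0 := div_ne_zero (pow_ne_zero _ hη0) (pow_ne_zero _ hc0)
    exact this h.symm
  -- the two classes
  have hcl : ∀ ω : L, ω ^ (2 * d) = η ^ 2 / c0 ^ 2 → ∃ ε : L, (ε = η ∨ ε = -η) ∧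
      ω ^ d = ε / c0 := by
    intro ω h
    have h1 : (ω ^ d) ^ 2 = (η / c0) ^ 2 := by
      rw [← pow_mul, mul_comm d 2, h, div_pow]
    rcases sq_eq_sq_iff_eq_or_eq_neg.1 h1 with h2 | h2
    · exact ⟨η, Or.inl rfl, h2⟩
    · exact ⟨-η, Or.inr rfl, by rw [h2, neg_div]⟩
  -- roots of units
  have hroot : ∀ ε ω : L, ω ^ d = ε / c0 → ∀ᶠ t in (𝒰 : Filter ℕ),
      ((ω / T t : L) : ℂ) ^ d = (ε : ℂ) * ((goldenRatio : ℝ) : ℂ) ^ (-(n t : ℤ)) := by
    intro ε ω h
    filter_upwards [hx] with t ht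
    have hT0 : (T t : ℂ) ≠ 0 := fun h0 => hT.ne t (Subtype.ext h0)
    have h1 : (ω : ℂ) ^ d = (ε : ℂ) / (c0 : ℂ) := by
      have := congrArg (fun x : L => (x : ℂ)) h
      simpa using this
    rw [zpow_neg, zpow_natCast, ← ht]
    push_cast
    rw [div_pow, h1]
    field_simp
  -- the same class
  have hsame : ∀ ε ω ω' : L, (ε = η ∨ ε = -η) → ω ^ d = ε / c0 → ω' ^ d = ε / c0 →
      TI D 𝒰 (fun t => z t / (T t - ω)) → TI D 𝒰 (fun t => z t / (T t - ω')) := by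
    intro ε ω ω' hε hω hω' hTI
    have hex : ∀ᶠ t in (𝒰 : Filter ℕ), ∃ σ : L ≃ₐ[ℚ] L, σ (ω / T t) = ω' / T t := by
      have hodd : ∀ᶠ t in (𝒰 : Filter ℕ), (Odd (n t) ∧ ((ε : ℂ) = 1 ∨ (ε : ℂ) = -1)) ∨
          ((ε : ℂ) = Complex.I ∨ (ε : ℂ) = -Complex.I) := by
        rcases hη with ⟨h1, h2⟩ | h2
        · filter_upwards [h1] with t ht
          left
          refine ⟨ht, ?_⟩
          rcases hε with rfl | rfl
          · exact Or.inl h2
          · right
            push_cast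
            rw [h2]
        · refine Eventually.of_forall fun t => Or.inr ?_
          rcases hε with rfl | rfl
          · exact Or.inl h2
          · right
            push_cast
            rw [h2]
      filter_upwards [hdn, hroot ε ω hω, hroot ε ω' hω', hodd] with t h1 h2 h3 h4
      exact trans_root h5 hI hd h1 ε h4 _ _ h2 h3
    have hfin : Finite (L ≃ₐ[ℚ] L) := inferInstance
    choose σ hσ using fun t => Classical.em (∃ σ : L ≃ₐ[ℚ] L, σ (ω / T t) = ω' / T t) |>.elim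
      (fun h => (⟨h.choose, fun _ => h.choose_spec⟩ :
        ∃ σ : L ≃ₐ[ℚ] L, (∃ σ : L ≃ₐ[ℚ] L, σ (ω / T t) = ω' / T t) → σ (ω / T t) = ω' / T t))
      (fun h => ⟨AlgEquiv.refl, fun h' => absurd h' h⟩)
    obtain ⟨σ0, -, hσ0⟩ := const_of_fin (𝒰 := 𝒰) σ (Set.toFinite Set.univ)
      (Eventually.of_forall fun t => Set.mem_univ _)
    refine step1 σ0 ω ω' hT ?_ (hz σ0) hTI
    filter_upwards [hσ0, hex] with t h1 h2
    rw [← h1]
    exact hσ t h2
  -- change of class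
  have hchange : ∀ ε ω : L, (ε = η ∨ ε = -η) → ω ^ d = ε / c0 →
      TI D 𝒰 (fun t => z t / (T t - ω)) →
      ∃ ω' : L, ω' ^ d = -ε / c0 ∧ TI D 𝒰 (fun t => z t / (T t - ω')) := by
    intro ε ω hε hω hTI
    have hωC : (ω : ℂ) ^ d = (ε : ℂ) / (c0 : ℂ) := by
      have := congrArg (fun x : L => (x : ℂ)) hω
      simpa using this
    have hε0 : ε ≠ 0 := by
      rcases hε with rfl | rfl
      · exact hη0
      · exact neg_ne_zero.2 hη0
    have hω0 : ω ≠ 0 := by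
      rintro rfl
      rw [zero_pow hd] at hω
      exact (div_ne_zero hε0 hc0) hω.symm
    rcases hη with ⟨hodd, h1⟩ | h1
    · -- `η = 1`
      obtain ⟨τ, hτ⟩ := exists_s5 (L := L) h5
      have hε1 : ε ^ 2 = 1 := by
        have h2 : η = 1 := Subtype.ext (by rw [h1]; rfl)
        rcases hε with rfl | rfl <;> rw [h2] <;> ring
      have hτε : τ ε = ε := by
        have h2 : η = 1 := Subtype.ext (by rw [h1]; rfl)
        rcases hε with rfl | rfl <;> rw [h2] <;> simp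
      -- the golden ratio in `L`
      obtain ⟨f, hf⟩ : ∃ f : L, f = (1 + s5) / 2 := ⟨_, rfl⟩
      have hfC : (f : ℂ) = ((goldenRatio : ℝ) : ℂ) := by
        rw [hf, phi_eq, ← h5]
        push_cast
        rfl
      have hs2 : s5 ^ 2 = 5 := by
        apply Subtype.ext
        push_cast
        rw [h5, ← Complex.ofReal_pow, Real.sq_sqrt (by norm_num), coe5]
        norm_num
      have hτf : τ f * f = -1 := by
        rw [hf, map_div₀, map_add, map_one, hτ, map_ofNat]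
        field_simp
        linear_combination -hs2
      have hxL : ∀ᶠ t in (𝒰 : Filter ℕ), c0 * T t ^ d = f ^ n t := by
        filter_upwards [hx] with t ht
        apply Subtype.ext
        push_cast
        rw [hfC, ht]
      have hf0 : f ≠ 0 := by
        rintro rfl
        rw [mul_zero] at hτf
        norm_num at hτf
      have key : ∀ᶠ t in (𝒰 : Filter ℕ), (T t / τ (ω / T t)) ^ d = -ε / c0 := by
        filter_upwards [hxL, hodd] with t ht hot
        have hT0 := hT.ne t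
        have h2 : (ω / T t) ^ d = ε / f ^ n t := by
          rw [div_pow, hω, ← ht]
          field_simp
        have h3 : (τ (ω / T t)) ^ d = ε / (τ f) ^ n t := by
          rw [← map_pow, h2, map_div₀, map_pow, hτε]
        have h4 : (τ f) ^ n t * f ^ n t = -1 := by
          rw [← mul_pow, hτf, hot.neg_one_pow]
        have h5 : T t ^ d = f ^ n t / c0 := by
          rw [← ht]
          field_simp
        have h6 : (τ f) ^ n t ≠ 0 := fun h0 => by
          rw [h0, zero_mul] at h4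
          norm_num at h4
        have h7 : f ^ n t ≠ 0 := pow_ne_zero _ hf0
        rw [div_pow, h3, h5]
        field_simp
        linear_combination h4 + hε1
      obtain ⟨ω', hω', hc⟩ := const_of_fin (𝒰 := 𝒰) (fun t => T t / τ (ω / T t))
        (finite_roots' d hd (-ε / c0)) key
      have hω'0 : ω' ≠ 0 := by
        rintro rfl
        have h2 : (0 : L) ^ d = -ε / c0 := hω'
        rw [zero_pow hd] at h2
        exact (div_ne_zero (neg_ne_zero.2 hε0) hc0) h2.symm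
      refine ⟨ω', hω', step2 τ ω ω' hω'0 hT ?_ (hz τ) hTI⟩
      filter_upwards [hc] with t ht
      have hT0 := hT.ne t
      have h2 : τ (ω / T t) ≠ 0 := (map_ne_zero τ).2 (div_ne_zero hω0 hT0)
      rw [← ht]
      field_simp
    · -- `η = i`
      obtain ⟨τ, hτ⟩ := exists_conj (L := L)
      have hτε : (starRingEnd ℂ) (ε : ℂ) = -(ε : ℂ) := by
        rcases hε with rfl | rfl
        · rw [h1, Complex.conj_I]
        · push_cast
          rw [h1, map_neg, Complex.conj_I]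
      have key : ∀ᶠ t in (𝒰 : Filter ℕ), (T t * τ (ω / T t)) ^ d = -ε / c0 := by
        filter_upwards [hx] with t ht
        have hT0 : (T t : ℂ) ≠ 0 := fun h0 => hT.ne t (Subtype.ext h0)
        apply Subtype.ext
        push_cast
        rw [hτ]
        push_cast
        rw [mul_pow, ← map_pow, div_pow, hωC]
        have h2 : (ε : ℂ) / (c0 : ℂ) / (T t : ℂ) ^ d = (ε : ℂ) / ((goldenRatio : ℝ) : ℂ) ^ n t := by
          rw [← ht]
          field_simp
        rw [h2, map_div₀, hτε, map_pow, Complex.conj_ofReal, ← ht]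
        field_simp
      obtain ⟨ω', hω', hc⟩ := const_of_fin (𝒰 := 𝒰) (fun t => T t * τ (ω / T t))
        (finite_roots' d hd (-ε / c0)) key
      refine ⟨ω', hω', step1 τ ω ω' hT ?_ (hz τ) hTI⟩
      filter_upwards [hc] with t ht
      have hT0 := hT.ne t
      rw [← ht]
      field_simp
  obtain ⟨ε, hε, h1⟩ := hcl ω hω
  obtain ⟨ε', hε', h2⟩ := hcl ω' hω'
  have h3 : ε' = ε ∨ ε' = -ε := by
    rcases hε with rfl | rfl <;> rcases hε' with rfl | rfl <;> simp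
  rcases h3 with rfl | rfl
  · exact hsame _ ω ω' hε h1 h2 hTI
  · obtain ⟨ω'', h4, h5'⟩ := hchange ε ω hε h1 hTI
    exact hsame (-ε) ω'' ω' hε' h4 h2 h5'

end Pool.Agent.H95.FB
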