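import Mathlib
import Pool.Graph.R_pool_sql_team_seeded_63374d34.N754.LT.Ext
import Pool.Agent.H95.FB.Asm
import Pool.Agent.H95.FB.Tra

/-!
# Sequences of sums of units and Fibonacci-like integers
-/

set_option autoImplicit false

open Finset Filter Topology Real

namespace Pool.Agent.H95.FB

open NumberField IsDedekindDomain
open Pool.Agent.Y742.SF Pool.Agent.Y742.DI Pool.Agent.Y742.AR

theorem mem_cl (x : ℂ) : x ∈ algebraicClosure ℚ ℂ ↔ IsAlgebraic ℚ x := mem_algebraicClosure_iff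

theorem coe_zp {L : IntermediateField ℚ ℂ} (x : L) (n : ℤ) :
    ((x ^ n : L) : ℂ) = (x : ℂ) ^ n := map_zpow₀ (algebraMap L ℂ) x n

theorem alg_of_pow {x : ℂ} {n : ℕ} (hn : 0 < n) (h : IsAlgebraic ℚ (x ^ n)) : IsAlgebraic ℚ x :=
  IsAlgebraic.of_pow hn h

theorem prod_roots {L : IntermediateField ℚ ℂ} (n : ℕ) (hn : n ≠ 0) (b : L) (hb : b ≠ 0)
    (hroots : ∀ y : ℂ, y ^ n = (b : ℂ) → y ∈ L) (R : Finset L) (hR : ∀ y, y ∈ R ↔ y ^ n = b)
    (x : L) : ∏ ω ∈ R, (x - ω) = x ^ n - b := by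
  classical
  have hbC : (b : ℂ) ≠ 0 := fun h => hb (Subtype.ext h)
  obtain ⟨P, hP⟩ : ∃ P : Polynomial ℂ, P = Polynomial.X ^ n - Polynomial.C (b : ℂ) := ⟨_, rfl⟩
  have hmon : P.Monic := by
    rw [hP]
    exact Polynomial.monic_X_pow_sub_C _ hn
  have hsep : P.Separable := by
    rw [hP]
    exact Polynomial.separable_X_pow_sub_C _ (by exact_mod_cast hn) hbC
  have hnd := Polynomial.nodup_roots hsep
  have h1 := (IsAlgClosed.splits P).eq_prod_roots_of_monic hmon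
  have h2 : P.roots.toFinset = R.image (fun y : L => (y : ℂ)) := by
    ext y
    rw [Multiset.mem_toFinset, Finset.mem_image, Polynomial.mem_roots hmon.ne_zero,
      Polynomial.IsRoot, hP, Polynomial.eval_sub, Polynomial.eval_pow, Polynomial.eval_X,
      Polynomial.eval_C, sub_eq_zero]
    constructor
    · intro h
      refine ⟨⟨y, hroots y h⟩, ?_, rfl⟩
      rw [hR]
      apply Subtype.ext
      push_cast
      exact h
    · rintro ⟨w, hw, rfl⟩
      rw [hR] at hw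
      rw [← hw]
      push_cast
      rfl
  have h3 : P = ∏ ω ∈ R, (Polynomial.X - Polynomial.C (ω : ℂ)) := by
    rw [h1]
    have h4 : (Multiset.map (fun x => Polynomial.X - Polynomial.C x) P.roots).prod =
        ∏ y ∈ P.roots.toFinset, (Polynomial.X - Polynomial.C y) := by
      rw [Finset.prod_eq_multiset_prod, Multiset.toFinset_val, hnd.dedup]
    rw [h4, h2, Finset.prod_image (fun a _ b _ h => Subtype.ext h)]
  have h4 := congrArg (Polynomial.eval (x : ℂ)) h3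
  rw [hP, Polynomial.eval_sub, Polynomial.eval_pow, Polynomial.eval_X, Polynomial.eval_C,
    Polynomial.eval_prod] at h4
  simp only [Polynomial.eval_sub, Polynomial.eval_X, Polynomial.eval_C] at h4
  apply Subtype.ext
  push_cast
  exact h4.symm

theorem main_seq {𝒰 : Ultrafilter ℕ} (n : ℕ → ℕ) (hn1 : ∀ t, 1 ≤ n t)
    (hn : Tendsto n (𝒰 : Filter ℕ) atTop)
    (hnp : ∀ p : ℕ, p.Prime → p ≠ 2 → ∀ᶠ t in (𝒰 : Filter ℕ), ¬ p ∣ n t)
    {r k : ℕ} (g : Fin r → ℂ) (hg0 : ∀ j, g j ≠ 0) (hga : ∀ j, IsAlgebraic ℚ (g j)) (B : ℕ)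
    (e : ℕ → Fin k → Fin r → ℤ) (he : ∀ t i j, |e t i j| ≤ B * n t) (z : ℕ → ℤ)
    (hz : ∀ t, (z t : ℂ) = ∑ i, ∏ j, g j ^ e t i j)
    (κ η : ℂ) (hκ1 : 1 ≤ ‖κ‖) (hκ3 : ‖κ‖ ≤ 3) (hκa : IsAlgebraic ℚ κ)
    (hη : ((∀ᶠ t in (𝒰 : Filter ℕ), Odd (n t)) ∧ η = 1) ∨ η = Complex.I)
    (M : ℕ → ℕ) (hM : ∀ᶠ t in (𝒰 : Filter ℕ), κ * ((M t : ℕ) : ℂ) =
      ((goldenRatio : ℝ) : ℂ) ^ n t - η ^ 2 * (((goldenRatio : ℝ) : ℂ) ^ n t)⁻¹)
    (hMp : ∀ A : ℕ, ∀ᶠ t in (𝒰 : Filter ℕ), ∀ q : ℕ, q.Prime → q ∣ M t → A < q)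
    (ε : ℝ) (hε : 0 < ε) (hgcd : ∀ t, (M t : ℝ) ^ ε ≤ (Int.gcd (z t) (M t) : ℝ)) :
    ∀ᶠ t in (𝒰 : Filter ℕ), ((M t : ℕ) : ℤ) ∣ z t := by
  classical
  have hφ0 : (0 : ℝ) < goldenRatio := goldenRatio_pos
  have hφ1 : (1 : ℝ) < goldenRatio := one_lt_goldenRatio
  obtain ⟨φ, hφ⟩ : ∃ φ : ℂ, φ = ((goldenRatio : ℝ) : ℂ) := ⟨_, rfl⟩
  rw [← hφ] at hM
  have hφne : φ ≠ 0 := by rw [hφ]; exact_mod_cast hφ0.ne'
  have hnormφ : ‖φ‖ = goldenRatio := by
    rw [hφ, Complex.norm_real, Real.norm_of_nonneg hφ0.le]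
  have hη2 : ‖η ^ 2‖ = 1 := by
    rcases hη with ⟨-, h⟩ | h <;> rw [h] <;> simp
  have hη0 : η ≠ 0 := by
    rintro rfl
    rw [zero_pow two_ne_zero, norm_zero] at hη2
    exact zero_ne_one hη2
  -- growth
  have hgrow : Tendsto (fun t => goldenRatio ^ n t) (𝒰 : Filter ℕ) atTop :=
    (tendsto_pow_atTop_atTop_of_one_lt hφ1).comp hn
  have hnR : Tendsto (fun t => ((n t : ℕ) : ℝ)) (𝒰 : Filter ℕ) atTop :=
    tendsto_natCast_atTop_atTop.comp hn
  -- the sequences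
  obtain ⟨u, hu⟩ : ∃ u : Fin (k + 1) → ℕ → ℂ, u = Fin.cons (fun t => φ ^ n t)
    (fun i t => ∏ j, g j ^ e t i j) := ⟨_, rfl⟩
  have hu0 : u 0 = fun t => φ ^ n t := by rw [hu]; rfl
  have hus : ∀ i : Fin k, u i.succ = fun t => ∏ j, g j ^ e t i j := by
    intro i
    rw [hu]
    rfl
  have hune : ∀ i t, u i t ≠ 0 := by
    intro i t
    refine Fin.cases ?_ (fun i => ?_) i
    · rw [hu0]
      exact pow_ne_zero _ hφne
    · rw [hus]
      exact Finset.prod_ne_zero_iff.2 fun j _ => zpow_ne_zero _ (hg0 j)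
  have h0 : ∀ c : ℂ, ¬ ∀ᶠ t in (𝒰 : Filter ℕ), u 0 t = c := by
    intro c hc
    obtain ⟨t, ht1, ht2⟩ := (hc.and (hgrow.eventually_gt_atTop ‖c‖)).exists
    rw [← ht1, hu0] at ht2
    simp only at ht2
    rw [norm_pow, hnormφ] at ht2
    exact lt_irrefl _ ht2
  obtain ⟨m, zz, j0, a, A, c0, c, ha, hc0, hc, hind⟩ := exists_param 𝒰 u hune h0
  -- algebraic numbers
  have hφalg : φ ∈ algebraicClosure ℚ ℂ := by
    rw [mem_cl]
    refine ⟨Polynomial.X ^ 2 - Polynomial.X - 1, ?_, ?_⟩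
    · intro h
      have := congrArg (Polynomial.eval 0) h
      simp at this
    · rw [map_sub, map_sub, map_pow, Polynomial.aeval_X, map_one]
      have h2 : φ ^ 2 = φ + 1 := by
        rw [hφ]
        exact_mod_cast goldenRatio_sq
      rw [h2]
      ring
  have hualg : ∀ i t, u i t ∈ algebraicClosure ℚ ℂ := by
    intro i t
    refine Fin.cases ?_ (fun i => ?_) i
    · rw [hu0]
      exact pow_mem hφalg _
    · rw [hus]
      exact prod_mem fun j _ => zpow_mem ((mem_cl _).2 (hga j)) _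
  have hmoalg : ∀ j t, mo u (zz j) t ∈ algebraicClosure ℚ ℂ := fun j t =>
    prod_mem fun i _ => zpow_mem (hualg i t) _
  have hc0eq : ∃ t, c0 = u 0 t / mo u (zz j0) t ^ a := by
    obtain ⟨t, ht⟩ := hc0.exists
    refine ⟨t, ?_⟩
    rw [ht, mul_div_cancel_right₀ _ (pow_ne_zero _ (mo_ne u hune _ _))]
  have hc0ne : c0 ≠ 0 := by
    obtain ⟨t, ht⟩ := hc0eq
    rw [ht]
    exact div_ne_zero (hune 0 t) (pow_ne_zero _ (mo_ne u hune _ _))
  have hc0alg : c0 ∈ algebraicClosure ℚ ℂ := by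
    obtain ⟨t, ht⟩ := hc0eq
    rw [ht]
    exact div_mem (hualg 0 t) (pow_mem (hmoalg j0 t) _)
  -- the field
  obtain ⟨b, hb⟩ : ∃ b : ℂ, b = η ^ 2 / c0 ^ 2 := ⟨_, rfl⟩
  have hIalg : Complex.I ∈ algebraicClosure ℚ ℂ := by
    rw [mem_cl]
    refine alg_of_pow (n := 2) (by norm_num) ?_
    rw [Complex.I_sq]
    exact (isAlgebraic_one).neg
  have hηalg : η ∈ algebraicClosure ℚ ℂ := by
    rcases hη with ⟨-, h⟩ | h
    · rw [h]
      exact one_mem _
    · rw [h]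
      exact hIalg
  have hbalg : b ∈ algebraicClosure ℚ ℂ := by
    rw [hb]
    exact div_mem (pow_mem hηalg _) (pow_mem hc0alg _)
  have hbne : b ≠ 0 := by
    rw [hb]
    exact div_ne_zero (pow_ne_zero _ hη0) (pow_ne_zero _ hc0ne)
  have h2a : 2 * a ≠ 0 := by omega
  have hrfin := finite_roots (2 * a) h2a b
  have hs5alg : ((√5 : ℝ) : ℂ) ∈ algebraicClosure ℚ ℂ := by
    rw [mem_cl]
    refine alg_of_pow (n := 2) (by norm_num) ?_
    rw [← Complex.ofReal_pow, Real.sq_sqrt (by norm_num)]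
    have : (((5 : ℝ)) : ℂ) = algebraMap ℚ ℂ 5 := by simp
    rw [this]
    exact isAlgebraic_algebraMap _
  obtain ⟨L, hfd, hgal, hL⟩ := Pool.Agent.N754.LT.galois_sub
    (Finset.univ.image g ∪ hrfin.toFinset ∪ {((√5 : ℝ) : ℂ), Complex.I, κ}) (by
      intro x hx
      rw [Finset.mem_union, Finset.mem_union, Finset.mem_image, Set.Finite.mem_toFinset] at hx
      rcases hx with (⟨j, -, rfl⟩ | hx) | hx
      · exact hga j
      · have hx' : x ^ (2 * a) = b := hx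
        exact alg_of_pow (n := 2 * a) (by omega) (by rw [hx']; exact (mem_cl _).1 hbalg)
      · simp only [Finset.mem_insert, Finset.mem_singleton] at hx
        rcases hx with rfl | rfl | rfl
        · exact (mem_cl _).1 hs5alg
        · exact (mem_cl _).1 hIalg
        · exact hκa)
  have hgL : ∀ j, g j ∈ L := fun j => hL _ (by simp)
  have hrL : ∀ y : ℂ, y ^ (2 * a) = b → y ∈ L := fun y hy => hL _ (by
    rw [Finset.mem_union, Finset.mem_union, Set.Finite.mem_toFinset]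
    exact Or.inl (Or.inr hy))
  have hs5L : ((√5 : ℝ) : ℂ) ∈ L := hL _ (by simp)
  have hIL : Complex.I ∈ L := hL _ (by simp)
  have hκL : κ ∈ L := hL _ (by simp)
  have hφL : φ ∈ L := by
    have h2 : (2 : ℂ) ∈ L := by
      have := add_mem (one_mem L) (one_mem L)
      rwa [one_add_one_eq_two] at this
    rw [hφ, phi_eq]
    exact div_mem (add_mem (one_mem _) hs5L) h2
  have huL : ∀ i t, u i t ∈ L := by
    intro i t
    refine Fin.cases ?_ (fun i => ?_) i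
    · rw [hu0]
      exact pow_mem hφL _
    · rw [hus]
      exact prod_mem fun j _ => zpow_mem (hgL j) _
  have hmoL : ∀ j t, mo u (zz j) t ∈ L := fun j t => prod_mem fun i _ => zpow_mem (huL i t) _
  have hc0L : c0 ∈ L := by
    obtain ⟨t, ht⟩ := hc0eq
    rw [ht]
    exact div_mem (huL 0 t) (pow_mem (hmoL j0 t) _)
  have hcL : ∀ i, c i ∈ L := by
    intro i
    obtain ⟨t, ht⟩ := (hc i).exists
    have h1 : ∏ j, mo u (zz j) t ^ A i j ≠ 0 :=
      Finset.prod_ne_zero_iff.2 fun j _ => zpow_ne_zero _ (mo_ne u hune _ _)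
    have h2 : c i = u i t / ∏ j, mo u (zz j) t ^ A i j := by
      rw [ht, mul_div_cancel_right₀ _ h1]
    rw [h2]
    exact div_mem (huL i t) (prod_mem fun j _ => zpow_mem (hmoL j t) _)
  have hηL : η ∈ L := by
    rcases hη with ⟨-, h⟩ | h
    · rw [h]
      exact one_mem _
    · rw [h]
      exact hIL
  have : NumberField L := ⟨⟩
  -- lifts
  obtain ⟨φL, hφL'⟩ : ∃ x : L, (x : ℂ) = φ := ⟨⟨φ, hφL⟩, rfl⟩
  obtain ⟨s5, hs5⟩ : ∃ x : L, (x : ℂ) = ((√5 : ℝ) : ℂ) := ⟨⟨_, hs5L⟩, rfl⟩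
  obtain ⟨iL, hiL⟩ : ∃ x : L, (x : ℂ) = Complex.I := ⟨⟨_, hIL⟩, rfl⟩
  obtain ⟨κL, hκL'⟩ : ∃ x : L, (x : ℂ) = κ := ⟨⟨_, hκL⟩, rfl⟩
  obtain ⟨ηL, hηL'⟩ : ∃ x : L, (x : ℂ) = η := ⟨⟨_, hηL⟩, rfl⟩
  obtain ⟨c0L, hc0L'⟩ : ∃ x : L, (x : ℂ) = c0 := ⟨⟨_, hc0L⟩, rfl⟩
  obtain ⟨gL, hgL'⟩ : ∃ x : Fin r → L, ∀ j, (x j : ℂ) = g j := ⟨fun j => ⟨_, hgL j⟩, fun j => rfl⟩
  obtain ⟨cL, hcL'⟩ : ∃ x : Fin (k + 1) → L, ∀ j, (x j : ℂ) = c j :=
    ⟨fun j => ⟨_, hcL j⟩, fun j => rfl⟩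
  obtain ⟨uL, huL'⟩ : ∃ x : Fin (k + 1) → ℕ → L, ∀ j t, (x j t : ℂ) = u j t :=
    ⟨fun j t => ⟨_, huL j t⟩, fun j t => rfl⟩
  obtain ⟨T, hT'⟩ : ∃ x : Fin m → ℕ → L, ∀ j t, (x j t : ℂ) = mo u (zz j) t :=
    ⟨fun j t => ⟨_, hmoL j t⟩, fun j t => rfl⟩
  have hφLne : φL ≠ 0 := by
    rintro rfl
    exact hφne hφL'.symm
  have hgLne : ∀ j, gL j ≠ 0 := by
    intro j h
    apply hg0 j
    rw [← hgL' j, h]
    rfl
  have hc0Lne : c0L ≠ 0 := by
    rintro rfl
    exact hc0ne hc0L'.symm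
  have hηLne : ηL ≠ 0 := by
    rintro rfl
    exact hη0 hηL'.symm
  have hκne : κ ≠ 0 := by
    rintro rfl
    rw [norm_zero] at hκ1
    linarith
  have hκLne : κL ≠ 0 := by
    rintro rfl
    exact hκne hκL'.symm
  -- the places
  obtain ⟨D, hD⟩ := exists_PD (K := L) ⟨iL, by
      apply Subtype.ext
      push_cast
      rw [hiL, Complex.I_sq]⟩
    ({v | fv v φL ≠ 1} ∪ ⋃ j, {v | fv v (gL j) ≠ 1})
    ((finite_ne_one φL hφLne).union (Set.finite_iUnion fun j => finite_ne_one _ (hgLne j)))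
  have hDφ : ∀ v : HeightOneSpectrum (𝓞 L), (∀ w, v ≠ D.P w) → fv v φL = 1 := by
    intro v hv
    by_contra hne
    obtain ⟨w, hw⟩ := hD v (Or.inl hne)
    exact hv w hw
  have hDg : ∀ j, ∀ v : HeightOneSpectrum (𝓞 L), (∀ w, v ≠ D.P w) → fv v (gL j) = 1 := by
    intro j v hv
    by_contra hne
    obtain ⟨w, hw⟩ := hD v (Or.inr (Set.mem_iUnion.2 ⟨j, hne⟩))
    exact hv w hw
  obtain ⟨N, hNdef⟩ : ∃ N : ℕ → ℝ, N = fun t => ((n t : ℕ) : ℝ) := ⟨_, rfl⟩
  have hN : ∀ t, 1 ≤ N t := by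
    intro t
    rw [hNdef]
    show (1 : ℝ) ≤ ((n t : ℕ) : ℝ)
    exact_mod_cast hn1 t
  have hNt : Tendsto N (𝒰 : Filter ℕ) atTop := by
    rw [hNdef]
    exact hnR
  -- the unit sequences
  have hSUu : ∀ i, SU D 𝒰 N (uL i) := by
    intro i
    refine Fin.cases ?_ (fun i => ?_) i
    · have h1 := SU.zpowN (𝒰 := 𝒰) hN φL hφLne hDφ (fun t => (n t : ℤ)) 1 zero_le_one
        (Eventually.of_forall fun t => by
          rw [hNdef, one_mul, Int.cast_natCast, Nat.abs_cast])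
      have h2 : uL 0 = fun t => φL ^ ((n t : ℕ) : ℤ) := by
        funext t
        apply Subtype.ext
        rw [huL', hu0, coe_zp, hφL', zpow_natCast]
      rw [h2]
      exact h1
    · have h1 : SU D 𝒰 N (fun t => ∏ j, gL j ^ e t i j) :=
        SU.prod hN Finset.univ (f := fun j t => gL j ^ e t i j) fun j _ =>
          SU.zpowN (𝒰 := 𝒰) hN (gL j) (hgLne j) (hDg j) (fun t => e t i j) B (Nat.cast_nonneg _)
          (Eventually.of_forall fun t => by
            rw [hNdef]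
            show |((e t i j : ℤ) : ℝ)| ≤ (B : ℝ) * ((n t : ℕ) : ℝ)
            exact_mod_cast he t i j)
      have h2 : uL i.succ = fun t => ∏ j, gL j ^ e t i j := by
        funext t
        apply Subtype.ext
        rw [huL', hus]
        push_cast
        exact Finset.prod_congr rfl fun j _ => by rw [coe_zp, hgL']
      rw [h2]
      exact h1
  have hTu : ∀ j, T j = fun t => ∏ i, uL i t ^ zz j i := by
    intro j
    funext t
    apply Subtype.ext
    rw [hT']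
    push_cast
    unfold mo
    exact Finset.prod_congr rfl fun i _ => by rw [coe_zp, huL']
  have hSUT : ∀ j, SU D 𝒰 N (T j) := by
    intro j
    rw [hTu]
    exact SU.prod hN Finset.univ (f := fun i t => uL i t ^ zz j i) fun i _ => (hSUu i).zpow hN _
  have hMI : MInd 𝒰 T := by
    intro w c' hw
    refine hind w (c' : ℂ) ?_
    filter_upwards [hw] with t ht
    rw [← ht]
    push_cast
    exact Finset.prod_congr rfl fun j _ => by rw [coe_zp, hT']
  -- the roots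
  obtain ⟨bL, hbL⟩ : ∃ bL : L, bL = ηL ^ 2 / c0L ^ 2 := ⟨_, rfl⟩
  have hbL' : (bL : ℂ) = b := by
    rw [hbL, hb]
    push_cast
    rw [hηL', hc0L']
  have hbLne : bL ≠ 0 := by
    rintro rfl
    exact hbne hbL'.symm
  obtain ⟨R, hRmem⟩ : ∃ R : Finset L, ∀ y, y ∈ R ↔ y ^ (2 * a) = bL :=
    ⟨(finite_roots' (2 * a) h2a bL).toFinset, fun y => by
      rw [Set.Finite.mem_toFinset]
      exact Iff.rfl⟩
  have hR := prod_roots (2 * a) h2a bL hbLne (fun y hy => hrL y (by rw [hy, hbL'])) R hRmem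
  have hR0 : ∀ ω ∈ R, ω ≠ 0 := by
    rintro ω hω rfl
    rw [hRmem, zero_pow h2a] at hω
    exact hbLne hω.symm
  have hx : ∀ᶠ t in (𝒰 : Filter ℕ), (c0L : ℂ) * (T j0 t : ℂ) ^ a =
      ((goldenRatio : ℝ) : ℂ) ^ n t := by
    filter_upwards [hc0] with t ht
    rw [hc0L', hT', ← ht, hu0, hφ]
  -- the integers `M`
  have hMlow : ∀ᶠ t in (𝒰 : Filter ℕ), (goldenRatio ^ n t - 1) / 3 ≤ (M t : ℝ) := by
    filter_upwards [hM] with t hMt
    have h1 := congrArg norm hMt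
    rw [norm_mul, Complex.norm_natCast] at h1
    have h2 := norm_sub_norm_le (φ ^ n t) (η ^ 2 * (φ ^ n t)⁻¹)
    rw [norm_mul, hη2, one_mul, norm_inv, norm_pow, hnormφ, ← h1] at h2
    have h3 : (goldenRatio ^ n t)⁻¹ ≤ 1 := inv_le_one_of_one_le₀ (one_le_pow₀ hφ1.le)
    have h4 : (0 : ℝ) ≤ M t := Nat.cast_nonneg _
    nlinarith
  have hMup : ∀ᶠ t in (𝒰 : Filter ℕ), (M t : ℝ) ≤ goldenRatio ^ n t + 1 := by
    filter_upwards [hM] with t hMt
    have h1 := congrArg norm hMt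
    rw [norm_mul, Complex.norm_natCast] at h1
    have h2 := norm_sub_le (φ ^ n t) (η ^ 2 * (φ ^ n t)⁻¹)
    rw [norm_mul, hη2, one_mul, norm_inv, norm_pow, hnormφ, ← h1] at h2
    have h3 : (goldenRatio ^ n t)⁻¹ ≤ 1 := inv_le_one_of_one_le₀ (one_le_pow₀ hφ1.le)
    have h4 : (0 : ℝ) ≤ M t := Nat.cast_nonneg _
    nlinarith
  obtain ⟨ℓ, hℓ⟩ : ∃ ℓ : ℝ, ℓ = Real.log goldenRatio := ⟨_, rfl⟩
  have hℓ0 : 0 < ℓ := by rw [hℓ]; exact Real.log_pos hφ1
  have hexp : ∀ t, goldenRatio ^ n t = Real.exp (ℓ * N t) := by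
    intro t
    rw [hℓ, hNdef, mul_comm, Real.exp_nat_mul, Real.exp_log hφ0]
  have hM0 : ∀ᶠ t in (𝒰 : Filter ℕ), M t ≠ 0 := by
    filter_upwards [hgrow.eventually_gt_atTop 1, hMlow] with t ht h1
    intro h
    rw [h, Nat.cast_zero] at h1
    linarith
  have hMge : ∀ᶠ t in (𝒰 : Filter ℕ), (ℓ / (2 * a)) * N t ≤ Real.log (M t) := by
    filter_upwards [hgrow.eventually_ge_atTop 16, hMlow] with t ht h1
    have h2 : Real.exp (ℓ / 2 * N t) ^ 2 = goldenRatio ^ n t := by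
      rw [hexp, ← Real.exp_nat_mul]
      congr 1
      push_cast
      ring
    have h3 : 4 ≤ Real.exp (ℓ / 2 * N t) := by
      have h4 := Real.exp_pos (ℓ / 2 * N t)
      nlinarith
    have h4 : Real.exp (ℓ / 2 * N t) ≤ M t := by nlinarith
    have h5 : 0 < (M t : ℝ) := (Real.exp_pos _).trans_le h4
    have h6 : ℓ / 2 * N t ≤ Real.log (M t) := (Real.le_log_iff_exp_le h5).2 h4
    refine le_trans ?_ h6
    have h7 : ℓ / (2 * a) ≤ ℓ / 2 := by
      have : (1 : ℝ) ≤ a := by exact_mod_cast ha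
      apply div_le_div_of_nonneg_left hℓ0.le (by norm_num) (by linarith)
    have := hN t
    nlinarith
  have hMle : ∀ᶠ t in (𝒰 : Filter ℕ), (M t : ℝ) ≤ Real.exp (N t) := by
    filter_upwards [hNt.eventually_ge_atTop 4, hMup] with t ht h1
    have h2 : goldenRatio < 2 := goldenRatio_lt_two
    have h3 : ℓ ≤ Real.log 2 := by
      rw [hℓ]
      exact Real.log_le_log hφ0 h2.le
    have h4 := Real.log_two_lt_d9
    have h5 : goldenRatio ^ n t ≤ Real.exp (0.7 * N t) := by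
      rw [hexp, Real.exp_le_exp]
      nlinarith
    have h6 : Real.exp (N t) = Real.exp (0.7 * N t) * Real.exp (0.3 * N t) := by
      rw [← Real.exp_add]
      congr 1
      ring
    have h7 : 2 ≤ Real.exp (0.3 * N t) := by
      have := Real.add_one_le_exp (0.3 * N t)
      nlinarith
    have h8 : 1 ≤ Real.exp (0.7 * N t) := by
      rw [Real.one_le_exp_iff]
      nlinarith
    rw [h6]
    nlinarith
  -- one large place
  obtain ⟨σ0, hσ0⟩ := exists_embs (K := L) D.ψ (algebraMap L ℂ)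
  have hbig : ∀ᶠ t in (𝒰 : Filter ℕ), (ℓ / (2 * a)) * N t ≤
      ∑ v, max 0 (Real.log (D.av v (T j0 t))) := by
    filter_upwards [hx, hNt.eventually_ge_atTop (2 * Real.log ‖c0‖ / ℓ)] with t ht hNl
    have h1 : max 0 (Real.log (D.av (Sum.inl σ0) (T j0 t))) ≤
        ∑ v, max 0 (Real.log (D.av v (T j0 t))) :=
      Finset.single_le_sum (f := fun v => max 0 (Real.log (D.av v (T j0 t))))
        (fun _ _ => le_max_left _ _) (Finset.mem_univ _)
    refine le_trans (le_trans ?_ (le_max_right _ _)) h1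
    have h2 : D.av (Sum.inl σ0) (T j0 t) = ‖(T j0 t : ℂ)‖ := by
      show ‖D.ψ (σ0 (T j0 t))‖ = _
      rw [← hσ0]
      rfl
    rw [h2]
    have h3 := congrArg norm ht
    rw [norm_mul, norm_pow, norm_pow, hc0L', ← hφ, hnormφ, hexp] at h3
    have hc0pos : 0 < ‖c0‖ := norm_pos_iff.2 hc0ne
    have hTne : (T j0 t : ℂ) ≠ 0 := by
      rw [hT']
      exact mo_ne u hune _ _
    have hTpos : 0 < ‖(T j0 t : ℂ)‖ := norm_pos_iff.2 hTne
    have h4 := congrArg Real.log h3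
    rw [Real.log_exp, Real.log_mul hc0pos.ne' (pow_ne_zero _ hTpos.ne'), Real.log_pow] at h4
    have haR : (0 : ℝ) < a := by exact_mod_cast ha
    rw [div_le_iff₀ hℓ0] at hNl
    rw [div_mul_eq_mul_div, div_le_iff₀ (by positivity)]
    nlinarith
  refine fin_step (D := D) hN hNt T hSUT hMI j0 a c0L κL bL hc0Lne hκLne R hR0 hR M hM0 ?_
    (fun i : Fin k => cL i.succ) (fun i => A i.succ) z ?_ ?_ (ℓ / (2 * a))
    (div_pos hℓ0 (by positivity)) hbig hMle hMge hMp ε hε (Eventually.of_forall hgcd)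
  · -- the relation for `M`
    filter_upwards [hx, hM] with t ht hMt
    apply Subtype.ext
    have hTne : (T j0 t : ℂ) ≠ 0 := by
      rw [hT']
      exact mo_ne u hune _ _
    push_cast
    rw [hκL', hMt, hφ, ← ht, hbL', hb, hc0L']
    field_simp
    ring
  · -- the sums
    have h1 : ∀ᶠ t in (𝒰 : Filter ℕ), ∀ i, u i t = c i * ∏ j, mo u (zz j) t ^ A i j :=
      (Filter.eventually_all).2 hc
    filter_upwards [h1] with t ht
    apply Subtype.ext
    push_cast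
    rw [hz]
    refine Finset.sum_congr rfl fun i _ => ?_
    have h2 := ht i.succ
    rw [hus] at h2
    simp only at h2
    rw [h2, hcL']
    congr 1
    exact Finset.prod_congr rfl fun j _ => by rw [coe_zp, hT']
  · -- the orbits
    intro ω hω hTI ω' hω'
    rw [hRmem, hbL] at hω hω'
    refine orb hs5 hiL ha.ne' n ?_ (T j0) (fun t => ((z t : ℤ) : L)) (hSUT j0) c0L hx
      (fun σ => Eventually.of_forall fun t => map_intCast σ _) ηL ?_ ω ω' hω hω' hTI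
    · -- prime divisors of `a`
      have h1 : ∀ᶠ t in (𝒰 : Filter ℕ), ∀ p ∈ a.primeFactors, p ≠ 2 → ¬ p ∣ n t := by
        refine (Filter.eventually_all_finset _).2 fun p hp => ?_
        by_cases h2 : p = 2
        · exact Eventually.of_forall fun t h => absurd h2 h
        · filter_upwards [hnp p (Nat.prime_of_mem_primeFactors hp) h2] with t ht _
          exact ht
      filter_upwards [h1] with t ht p hp hpa hp2
      exact ht p (Nat.mem_primeFactors.2 ⟨hp, hpa, ha.ne'⟩) hp2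
    · rw [hηL']
      exact hη

end Pool.Agent.H95.FB
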