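import Mathlib
import Pool.Agent.H95.FB.Fib
import Pool.Agent.H95.FB.Main

/-!
# Fibonacci and Lucas numbers and integers with few digits
-/

set_option autoImplicit false

open Finset Filter Topology Real

namespace Pool.Agent.H95.FB

/-- the integers which are sums of at most `k` products of powers of the numbers `g j`, with
exponents of absolute value at most `H` -/
def Sums {r : ℕ} (g : Fin r → ℂ) (k H : ℕ) : Set ℤ :=
  {z | ∃ k' ≤ k, ∃ e : Fin k' → Fin r → ℤ, (∀ i j, |e i j| ≤ (H : ℤ)) ∧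
    (z : ℂ) = ∑ i, ∏ j, g j ^ e i j}

/-- `M` is a Fibonacci or Lucas number whose index `n > 1` has no prime factor up to `P`, or a Lucas
number whose index is a power of two with exponent larger than `P` -/
def Adm (P n M : ℕ) : Prop :=
  (1 < n ∧ (∀ q : ℕ, q.Prime → q ∣ n → P < q) ∧ (M = Nat.fib n ∨ M = lucas n)) ∨
    ∃ j, P < j ∧ n = 2 ^ j ∧ M = lucas n

theorem Adm.mono {P P' n M : ℕ} (h : Adm P n M) (hP : P' ≤ P) : Adm P' n M := by
  rcases h with ⟨h1, h2, h3⟩ | ⟨j, h1, h2⟩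
  · exact Or.inl ⟨h1, fun q hq hqn => hP.trans_lt (h2 q hq hqn), h3⟩
  · exact Or.inr ⟨j, by omega, h2⟩

theorem Adm.lt {P n M : ℕ} (h : Adm P n M) : P < n := by
  rcases h with ⟨h1, h2, -⟩ | ⟨j, h1, rfl, -⟩
  · have h3 := Nat.minFac_prime (show n ≠ 1 by omega)
    exact (h2 _ h3 (Nat.minFac_dvd n)).trans_le (Nat.minFac_le (by omega))
  · exact h1.trans Nat.lt_two_pow_self

theorem Adm.primes (A : ℕ) : ∃ P, ∀ n M, Adm P n M → ∀ q : ℕ, q.Prime → q ∣ M → A < q := by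
  obtain ⟨m1, h1⟩ := fib_large A
  obtain ⟨m2, h2⟩ := lucas_large A
  obtain ⟨J, h3⟩ := lucas_pow_large A
  refine ⟨m1 + m2 + J, ?_⟩
  rintro n M (⟨-, h4, rfl | rfl⟩ | ⟨j, h5, rfl, rfl⟩)
  · exact h1 n fun q hq hqn => by
      have := h4 q hq hqn
      omega
  · exact h2 n fun q hq hqn => by
      have := h4 q hq hqn
      omega
  · exact h3 j (by omega)

theorem fixed_k {r k : ℕ} (g : Fin r → ℂ) (hg0 : ∀ j, g j ≠ 0) (hga : ∀ j, IsAlgebraic ℚ (g j))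
    (B : ℕ) (ε : ℝ) (hε : 0 < ε) : ∃ P : ℕ, ∀ n M : ℕ, Adm P n M → ∀ z : ℤ,
      (∃ e : Fin k → Fin r → ℤ, (∀ i j, |e i j| ≤ ((B * n : ℕ) : ℤ)) ∧
        (z : ℂ) = ∑ i, ∏ j, g j ^ e i j) →
      (M : ℤ) ∣ z ∨ (Int.gcd z M : ℝ) < (M : ℝ) ^ ε := by
  by_contra hcon
  push Not at hcon
  choose n M hadm z hze hndvd hgcd using hcon
  choose e he hz using hze
  obtain ⟨𝒰, h𝒰⟩ : ∃ 𝒰 : Ultrafilter ℕ, 𝒰 = Filter.hyperfilter ℕ := ⟨_, rfl⟩
  have hle : (𝒰 : Filter ℕ) ≤ atTop := by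
    rw [h𝒰]
    exact Nat.hyperfilter_le_atTop
  have hnt : ∀ t, t < n t := fun t => (hadm t).lt
  have hn : Tendsto n (𝒰 : Filter ℕ) atTop := by
    refine Tendsto.mono_left ?_ hle
    exact tendsto_atTop_mono (fun t => (hnt t).le) tendsto_id
  have hn1 : ∀ t, 1 ≤ n t := fun t => by
    have := hnt t
    omega
  have hnp : ∀ p : ℕ, p.Prime → p ≠ 2 → ∀ᶠ t in (𝒰 : Filter ℕ), ¬ p ∣ n t := by
    intro p hp hp2
    filter_upwards [hle (eventually_ge_atTop p)] with t ht hpn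
    rcases hadm t with ⟨-, h2, -⟩ | ⟨j, -, h2, -⟩
    · have := h2 p hp hpn
      omega
    · rw [h2] at hpn
      exact hp2 ((Nat.prime_dvd_prime_iff_eq hp Nat.prime_two).1 (hp.dvd_of_dvd_pow hpn))
  have hMp : ∀ A : ℕ, ∀ᶠ t in (𝒰 : Filter ℕ), ∀ q : ℕ, q.Prime → q ∣ M t → A < q := by
    intro A
    obtain ⟨P, hP⟩ := Adm.primes A
    filter_upwards [hle (eventually_ge_atTop P)] with t ht
    exact hP _ _ ((hadm t).mono ht)
  have hkind : ∀ᶠ t in (𝒰 : Filter ℕ), (Odd (n t) ∧ M t = Nat.fib (n t)) ∨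
      (Odd (n t) ∧ M t = lucas (n t)) ∨ (Even (n t) ∧ M t = lucas (n t)) := by
    filter_upwards [hle (eventually_ge_atTop 2)] with t ht
    rcases hadm t with ⟨-, h2, h3⟩ | ⟨j, -, h2, h3⟩
    · have hodd : Odd (n t) := by
        rw [← Nat.not_even_iff_odd]
        intro h4
        have := h2 2 Nat.prime_two h4.two_dvd
        omega
      rcases h3 with h3 | h3
      · exact Or.inl ⟨hodd, h3⟩
      · exact Or.inr (Or.inl ⟨hodd, h3⟩)
    · rcases Nat.even_or_odd (n t) with h4 | h4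
      · exact Or.inr (Or.inr ⟨h4, h3⟩)
      · exact Or.inr (Or.inl ⟨h4, h3⟩)
  have hfin : ∀ κ η : ℂ, 1 ≤ ‖κ‖ → ‖κ‖ ≤ 3 → IsAlgebraic ℚ κ →
      ((∀ᶠ t in (𝒰 : Filter ℕ), Odd (n t)) ∧ η = 1) ∨ η = Complex.I →
      (∀ᶠ t in (𝒰 : Filter ℕ), κ * ((M t : ℕ) : ℂ) =
        ((goldenRatio : ℝ) : ℂ) ^ n t - η ^ 2 * (((goldenRatio : ℝ) : ℂ) ^ n t)⁻¹) → False := by
    intro κ η h1 h2 h3 h4 h5
    have h6 := main_seq n hn1 hn hnp g hg0 hga B e (fun t i j => by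
      have := he t i j
      push_cast at this
      exact this) z hz κ η h1 h2 h3 h4 M h5 hMp ε hε hgcd
    obtain ⟨t, ht⟩ := h6.exists
    exact hndvd t ht
  have hs5 : ‖((√5 : ℝ) : ℂ)‖ = √5 := by
    rw [Complex.norm_real, Real.norm_of_nonneg (Real.sqrt_nonneg 5)]
  rcases (Ultrafilter.eventually_or.1 hkind) with h | h
  · refine hfin ((√5 : ℝ) : ℂ) Complex.I ?_ ?_ ?_ (Or.inr rfl) ?_
    · rw [hs5]
      exact Real.one_le_sqrt.2 (by norm_num)
    · rw [hs5]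
      rw [Real.sqrt_le_left (by norm_num)]
      norm_num
    · refine alg_of_pow (n := 2) (by norm_num) ?_
      rw [← Complex.ofReal_pow, Real.sq_sqrt (by norm_num)]
      have : (((5 : ℝ)) : ℂ) = algebraMap ℚ ℂ 5 := by simp
      rw [this]
      exact isAlgebraic_algebraMap _
    · filter_upwards [h] with t ht
      rw [ht.2]
      exact fib_odd _ ht.1
  · rcases (Ultrafilter.eventually_or.1 h) with h | h
    · refine hfin 1 1 (by simp) (by simp) isAlgebraic_one (Or.inl ⟨?_, rfl⟩) ?_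
      · filter_upwards [h] with t ht
        exact ht.1
      · filter_upwards [h] with t ht
        rw [ht.2]
        exact lucas_odd _ ht.1
    · refine hfin 1 Complex.I (by simp) (by simp) isAlgebraic_one (Or.inr rfl) ?_
      filter_upwards [h] with t ht
      rw [ht.2]
      exact lucas_even _ ht.1

theorem any_k {r : ℕ} (k : ℕ) (g : Fin r → ℂ) (hg0 : ∀ j, g j ≠ 0)
    (hga : ∀ j, IsAlgebraic ℚ (g j)) (B : ℕ) (ε : ℝ) (hε : 0 < ε) :
    ∃ P : ℕ, ∀ n M : ℕ, Adm P n M → ∀ z ∈ Sums g k (B * n),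
      (M : ℤ) ∣ z ∨ (Int.gcd z M : ℝ) < (M : ℝ) ^ ε := by
  choose P hP using fun k' : ℕ => fixed_k (k := k') g hg0 hga B ε hε
  refine ⟨(Finset.range (k + 1)).sup P, ?_⟩
  rintro n M hadm z ⟨k', hk', e, he, hz⟩
  refine hP k' n M (hadm.mono ?_) z ⟨e, he, hz⟩
  exact Finset.le_sup (Finset.mem_range.2 (by omega))

/-- the divisor of a product -/
theorem dvd_prod_gcd {ι : Type} (s : Finset ι) (z : ι → ℤ) (M : ℤ) (hM : M ∣ ∏ i ∈ s, z i) :
    M ∣ ((∏ i ∈ s, Int.gcd (z i) M : ℕ) : ℤ) := by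
  classical
  have h : ∀ s : Finset ι, Int.gcd M (∏ i ∈ s, z i) ∣ ∏ i ∈ s, Int.gcd (z i) M := by
    intro s
    induction s using Finset.induction_on with
    | empty => simp
    | insert i s hi ih =>
      rw [Finset.prod_insert hi, Finset.prod_insert hi]
      refine (Int.gcd_mul_right_dvd_mul_gcd M (z i) (∏ i ∈ s, z i)).trans ?_
      rw [Int.gcd_comm M (z i)]
      exact mul_dvd_mul_left _ ih
  have h2 : M ∣ (Int.gcd M (∏ i ∈ s, z i) : ℤ) := Int.dvd_coe_gcd dvd_rfl hM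
  exact h2.trans (by exact_mod_cast h s)

/-- Euclid's lemma -/
theorem euclid {M : ℕ} (hM : 1 < M) {ι : Type} (s : Finset ι) (z : ι → ℤ) {ε : ℝ}
    (hs : ε * s.card ≤ 1)
    (h : ∀ i ∈ s, (M : ℤ) ∣ z i ∨ (Int.gcd (z i) M : ℝ) < (M : ℝ) ^ ε)
    (hd : (M : ℤ) ∣ ∏ i ∈ s, z i) : ∃ i ∈ s, (M : ℤ) ∣ z i := by
  classical
  by_contra hcon
  push Not at hcon
  have hMr : (1 : ℝ) < M := by exact_mod_cast hM
  have h1 := dvd_prod_gcd s z M hd
  have h2 : M ∣ ∏ i ∈ s, Int.gcd (z i) M := by exact_mod_cast h1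
  have hpos : ∀ i ∈ s, 0 < Int.gcd (z i) M := by
    intro i _
    refine Nat.pos_of_ne_zero fun h => ?_
    rw [Int.gcd_eq_zero_iff] at h
    have : M = 0 := by exact_mod_cast h.2
    omega
  have h3 : M ≤ ∏ i ∈ s, Int.gcd (z i) M := Nat.le_of_dvd (Finset.prod_pos hpos) h2
  have h4 : (M : ℝ) ≤ ∏ i ∈ s, (Int.gcd (z i) M : ℝ) := by exact_mod_cast h3
  rcases s.eq_empty_or_nonempty with rfl | hne
  · rw [Finset.prod_empty] at h4
    linarith
  · have h5 : ∏ i ∈ s, (Int.gcd (z i) M : ℝ) < ∏ i ∈ s, (M : ℝ) ^ ε := by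
      refine Finset.prod_lt_prod_of_nonempty (fun i hi => ?_) (fun i hi => ?_) hne
      · exact_mod_cast hpos i hi
      · exact (h i hi).resolve_left (hcon i hi)
    rw [Finset.prod_const, ← Real.rpow_natCast, ← Real.rpow_mul (by linarith)] at h5
    have h6 : (M : ℝ) ^ (ε * (s.card : ℝ)) ≤ (M : ℝ) ^ (1 : ℝ) :=
      Real.rpow_le_rpow_of_exponent_le hMr.le hs
    rw [Real.rpow_one] at h6
    linarith

theorem Adm.one_lt {P n M : ℕ} (h : Adm P n M) (hP : 3 ≤ P) : 1 < M := by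
  have h1 := h.lt
  have h2 : Nat.fib 3 ≤ Nat.fib n := Nat.fib_mono (by omega)
  have h3 : Nat.fib n ≤ Nat.fib (n + 1) := Nat.fib_mono (by omega)
  have h4 := lucas_add_fib n
  have h5 : Nat.fib 3 = 2 := rfl
  have h6 : M = Nat.fib n ∨ M = lucas n := by
    rcases h with ⟨-, -, h⟩ | ⟨j, -, -, h⟩
    · exact h
    · exact Or.inr h
  rcases h6 with rfl | rfl <;> omega

end Pool.Agent.H95.FB
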